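import Pool.Agent.Work.MP_ae1ff6_bl.Interface

/-! Block ADD of THEOREM BL (helper41). -/

open Topology Filter Set
open scoped ComplexConjugate

set_option autoImplicit false

namespace Pool.BL

open Pool.CG

theorem ADD_param (x y : Circle) (h : x ≠ y) : ∃ σ τ : ℝ, σ < τ ∧ τ < σ + 2 * Real.pi ∧
    Circle.exp σ = x ∧ Circle.exp τ = y := by
  have hp : (0 : ℝ) < 2 * Real.pi := Real.two_pi_pos
  set σ : ℝ := Complex.arg (x : ℂ) with hσ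
  have h1 : Circle.exp σ = x := Circle.exp_arg x
  set θ : ℝ := Complex.arg (y : ℂ) with hθ
  have h2 : Circle.exp θ = y := Circle.exp_arg y
  set τ : ℝ := toIcoMod hp σ θ with hτ
  have h3 : Circle.exp τ = y := by
    rw [← h2, hτ, toIcoMod]
    exact Circle.periodic_exp.sub_zsmul_eq _
  have h4 : τ ∈ Ico σ (σ + 2 * Real.pi) := toIcoMod_mem_Ico hp σ θ
  refine ⟨σ, τ, lt_of_le_of_ne h4.1 ?_, h4.2, h1, h3⟩
  intro h5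
  exact h (by rw [← h1, ← h3, h5])

theorem p_ADD (hFXP : Stmt_FXP) (hEXT : Stmt_EXT) (hEX1 : Stmt_EX1) : Stmt_ADD := by
  intro Γ G m hΓ hle hnor hbd γ₁ γ₂ p₁ q₁ p₂ q₂ hγ₁ hγ₂ ha₁ ha₂ hl B hB₁ hB₂ hinf e he x y hax
  obtain ⟨σ, τ, hστ, hτσ, hx, hy⟩ := ADD_param x y hax.1
  have hpi : 0 < Real.pi := Real.pi_pos
  have hopen : ∀ s t : ℝ, s < t → t < s + 2 * Real.pi →
      IsOpen (Circle.exp '' Ioo s t) ∧ (Circle.exp '' Ioo s t).Nonempty := by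
    intro s t h1 h2
    exact ⟨(blk_ARC s t h1 h2).1, (nonempty_Ioo.2 h1).image _⟩
  have step : ∀ B₀ : Set H, γ₁ ∈ B₀ → γ₂ ∈ B₀ → InfMod Γ (Cen G B₀) → ∀ s t : ℝ, s < t →
      t < s + 2 * Real.pi → ∃ (e' : H) (α : ℝ) (y' : Circle), e' ∈ Γ ∧ s < α ∧ α < t ∧
        Axis e' (Circle.exp α) y' ∧ InfMod Γ (Cen G (insert e' B₀)) := by
    intro B₀ h1 h2 h3 s t h4 h5
    obtain ⟨e', he', _, ⟨α, hα, rfl⟩, y', hax', hinf'⟩ := hEX1 Γ G m hΓ hle hnor hbd γ₁ γ₂ p₁ q₁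
      p₂ q₂ hγ₁ hγ₂ ha₁ ha₂ hl B₀ h1 h2 h3 _ (hopen s t h4 h5).1 (hopen s t h4 h5).2
    exact ⟨e', α, y', he', hα.1, hα.2, hax', hinf'⟩
  obtain ⟨e₁, α₁, y₁, he₁, h1a, h1b, hx₁, hi₁⟩ := step B hB₁ hB₂ hinf σ ((σ + τ) / 2)
    (by linarith) (by linarith)
  obtain ⟨e₂, α₂, y₂, he₂, h2a, h2b, hx₂, hi₂⟩ := step (insert e₁ B) (Or.inr hB₁) (Or.inr hB₂)
    hi₁ ((σ + τ) / 2) τ (by linarith) (by linarith)
  obtain ⟨e₃, α₃, y₃, he₃, h3a, h3b, hx₃, hi₃⟩ := step (insert e₂ (insert e₁ B))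
    (Or.inr (Or.inr hB₁)) (Or.inr (Or.inr hB₂)) hi₂ τ ((τ + σ + 2 * Real.pi) / 2)
    (by linarith) (by linarith)
  obtain ⟨e₄, α₄, y₄, he₄, h4a, h4b, hx₄, hi₄⟩ := step (insert e₃ (insert e₂ (insert e₁ B)))
    (Or.inr (Or.inr (Or.inr hB₁))) (Or.inr (Or.inr (Or.inr hB₂))) hi₃
    ((τ + σ + 2 * Real.pi) / 2) (σ + 2 * Real.pi) (by linarith) (by linarith)
  set B₄ : Set H := insert e₄ (insert e₃ (insert e₂ (insert e₁ B))) with hB₄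
  have hfix : ∀ g ∈ Cen G B₄, ∀ e' ∈ B₄, e' ∈ Γ → ∀ (a b : Circle), Axis e' a b → g a = a :=
    fun g hg e' he' heΓ a b hab => (hFXP e' g a b (hΓ.mob e' heΓ) hab (hg.2 e' he')).1
  have hper : Circle.exp (α₄ - 2 * Real.pi) = Circle.exp α₄ := Circle.periodic_exp.sub_eq α₄
  have key := hEXT Γ G m hΓ hle hnor hbd B₄ (α₄ - 2 * Real.pi) α₁ α₂ α₃ (by linarith)
    (by linarith) (by linarith) (by linarith) hi₄ ?_ e he x ⟨σ, ⟨by linarith, by linarith⟩, hx⟩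
    y ⟨τ, ⟨by linarith, by linarith⟩, hy⟩ hax
  · exact ⟨insert e B₄, fun z hz => Or.inr (Or.inr (Or.inr (Or.inr (Or.inr hz)))), Or.inl rfl,
      key⟩
  · intro g hg
    refine ⟨?_, ?_, ?_, ?_⟩
    · rw [hper]
      exact hfix g hg e₄ (Or.inl rfl) he₄ _ _ hx₄
    · exact hfix g hg e₁ (Or.inr (Or.inr (Or.inr (Or.inl rfl)))) he₁ _ _ hx₁
    · exact hfix g hg e₂ (Or.inr (Or.inr (Or.inl rfl))) he₂ _ _ hx₂
    · exact hfix g hg e₃ (Or.inr (Or.inl rfl)) he₃ _ _ hx₃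

end Pool.BL
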