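import Pool.Agent.Work.MP_ae1ff6_bl.B_TCJ

/-! # Block BDB (helper1): the second parameter of a hyperbolic element -/

open Topology Filter Set
open scoped ComplexConjugate

set_option autoImplicit false

namespace Pool.BL

open Pool.CG

theorem BDB_sq (α β p q : ℂ) (h : ‖α‖ ^ 2 - ‖β‖ ^ 2 = 1) (hpq : p ≠ q)
    (hp : p * (conj β * p + conj α) = α * p + β) (hq : q * (conj β * q + conj α) = α * q + β) :
    (conj β) ^ 2 * (p - q) ^ 2 = ((4 * (α.re ^ 2 - 1) : ℝ) : ℂ) := by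
  have h1 : conj β * (p + q) = α - conj α := by
    have h2 : (p - q) * (conj β * (p + q) - (α - conj α)) = 0 := by
      linear_combination hp - hq
    rcases mul_eq_zero.1 h2 with h3 | h3
    · exact absurd (sub_eq_zero.1 h3) hpq
    · exact sub_eq_zero.1 h3
  have h4 : conj β * (p * q) = -β := by
    linear_combination p * h1 - hp
  have h5 : (conj β) ^ 2 * (p - q) ^ 2 = (α - conj α) ^ 2 + 4 * (β * conj β) := by
    linear_combination (conj β * (p + q) + (α - conj α)) * h1 - 4 * conj β * h4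
  rw [h5]
  have h6 : ‖α‖ ^ 2 = α.re ^ 2 + α.im ^ 2 := by
    rw [← Complex.normSq_eq_norm_sq, Complex.normSq_apply]; ring
  have h7 : β * conj β = ((α.re ^ 2 + α.im ^ 2 - 1 : ℝ) : ℂ) := by
    rw [MB1_mul]
    congr 1
    linarith
  have h8 : (α - conj α) ^ 2 = ((-4 * α.im ^ 2 : ℝ) : ℂ) := by
    rw [Complex.sub_conj]
    push_cast
    rw [mul_pow, Complex.I_sq]
    ring
  rw [h7, h8]
  push_cast
  ring

theorem p_BDB : Stmt_BDB := by
  intro N p q M ε hA hT hε hd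
  obtain ⟨α, β, hP, hM⟩ := (TCJ_iff N M).1 hT
  refine ⟨α, β, hP, ?_⟩
  have hM0 : 0 ≤ M := (abs_nonneg _).trans hM
  have hp := hP.2 p
  have hq := hP.2 q
  rw [(hA.2 p).2 (Or.inl rfl)] at hp
  rw [(hA.2 q).2 (Or.inr rfl)] at hq
  have hpq : (p : ℂ) ≠ (q : ℂ) := fun e => hA.1 (Subtype.ext e)
  have h1 := BDB_sq α β p q hP.1 hpq hp hq
  have h2 : (‖β‖ * dist p q) ^ 2 = |4 * (α.re ^ 2 - 1)| := by
    have h3 := congrArg norm h1
    rw [norm_mul, norm_pow, norm_pow, MB1_conj, Complex.norm_real, Real.norm_eq_abs] at h3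
    rw [MB1_dist, mul_pow]
    exact h3
  have h4 : |4 * (α.re ^ 2 - 1)| ≤ (2 * (M + 1)) ^ 2 := by
    have h5 : α.re ^ 2 ≤ M ^ 2 := sq_le_sq' (by linarith [neg_le_of_abs_le hM]) (le_of_abs_le hM)
    rw [abs_le]
    constructor <;> nlinarith [sq_nonneg α.re]
  have h6 : ‖β‖ * dist p q ≤ 2 * (M + 1) := by
    refine le_of_sq_le_sq ?_ (by linarith)
    rw [h2]; exact h4
  calc ‖β‖ * ε ≤ ‖β‖ * dist p q := mul_le_mul_of_nonneg_left hd (norm_nonneg _)
    _ ≤ 2 * (M + 1) := h6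

end Pool.BL
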