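import Pool.Agent.Work.MP_ae1ff6_bl.Interface

/-!
# Discrete groups of mapping classes with bounded lengths (MP_ae1ff6_gt): block CRS
-/

open Topology Filter Set
open scoped ComplexConjugate

set_option autoImplicit false

namespace Pool.BL

open Pool.CG

theorem CRS_axis {γ g : H} {p q : Circle} (h : Axis γ p q) :
    Axis (g * γ * g⁻¹) (g p) (g q) := by
  refine ⟨fun e => h.1 (g.injective e), fun z => ?_⟩
  show g (γ (g.symm z)) = z ↔ z = g p ∨ z = g q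
  have e1 : g (γ (g.symm z)) = z ↔ γ (g.symm z) = g.symm z := by
    constructor
    · intro e
      rw [← g.symm_apply_apply (γ (g.symm z)), e]
    · intro e
      rw [e, g.apply_symm_apply]
  have e2 : ∀ x, g.symm z = x ↔ z = g x := by
    intro x
    constructor
    · intro e
      rw [← e, g.apply_symm_apply]
    · intro e
      rw [e, g.symm_apply_apply]
  rw [e1, h.2, e2, e2]

theorem CRS_fix {γ g : H} {p q : Circle} (h : Axis γ p q) (hc : g * γ = γ * g) :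
    (g p = p ∧ g q = q) ∨ (g p = q ∧ g q = p) := by
  have h1 : ∀ x, γ x = x → γ (g x) = g x := by
    intro x hx
    have h2 : g (γ x) = γ (g x) := DFunLike.congr_fun hc x
    rw [← h2, hx]
  have hp := (h.2 (g p)).1 (h1 p ((h.2 p).2 (Or.inl rfl)))
  have hq := (h.2 (g q)).1 (h1 q ((h.2 q).2 (Or.inr rfl)))
  have hne : g p ≠ g q := fun e => h.1 (g.injective e)
  rcases hp with hp | hp <;> rcases hq with hq | hq
  · exact absurd (hp.trans hq.symm) hne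
  · exact Or.inl ⟨hp, hq⟩
  · exact Or.inr ⟨hp, hq⟩
  · exact absurd (hp.trans hq.symm) hne

/-- Block CRS. -/
theorem p_CRS (hF : Stmt_FNL) (hC : Stmt_COS) (hP : Stmt_PIN) (hS : Stmt_SYM) : Stmt_CRS := by
  intro Γ G m h1 h2 h3 hb γ₁ p₁ q₁ hγ₁ ha₁ hi
  obtain ⟨A, B, U, V, hA, hB, hU, hU', hV, hV', hL⟩ := blk_LOP blk_ARC p₁ q₁ ha₁.1
  obtain ⟨γ₂, hγ₂, p₂, hp₂, q₂, hq₂, ha₂⟩ := dns Γ h1 U V hU hU' hV hV'
  have hlink : Link p₁ q₁ p₂ q₂ :=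
    hL p₁ (mem_of_mem_nhds hA) q₁ (mem_of_mem_nhds hB) p₂ hp₂ q₂ hq₂
  obtain ⟨M, hM⟩ := hb ⟨γ₂, hγ₂⟩ ⟨p₂, q₂, ha₂⟩
  obtain ⟨F, hF1, hF2⟩ := hF Γ h1 m ⟨γ₁, hγ₁⟩ p₁ q₁ ha₁ M
  have key : ∀ g ∈ Cen G {γ₁}, ∃ κ ∈ Γ, κ * g ∈
      {g : H | g ∈ Cen G {γ₁} ∧ g * γ₂ * g⁻¹ ∈ (Subtype.val '' F : Set H)} := by
    intro g hg
    have hc : g * γ₁ = γ₁ * g := hg.2 γ₁ rfl
    have hmem : g * γ₂ * g⁻¹ ∈ Γ := h3 g hg.1 γ₂ hγ₂
    have hax : Axis (g * γ₂ * g⁻¹) (g p₂) (g q₂) := CRS_axis ha₂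
    have hl1 : Link (g p₂) (g q₂) (g p₁) (g q₁) :=
      (hS _ _ _ _ (fun e => ha₁.1 (g.injective e)) (blk_LHI g _ _ _ _ hlink)).1
    have hl2 : Link (g p₂) (g q₂) p₁ q₁ := by
      rcases CRS_fix ha₁ hc with ⟨e1, e2⟩ | ⟨e1, e2⟩
      · rwa [e1, e2] at hl1
      · rw [e1, e2] at hl1
        exact (hS _ _ _ _ hax.1 hl1).2.2
    obtain ⟨k, hk⟩ := hF2 ⟨g * γ₂ * g⁻¹, hmem⟩ (g p₂) (g q₂) hax (Or.inl hl2)
      (hM g hg.1 _ rfl)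
    refine ⟨γ₁ ^ k, Γ.zpow_mem hγ₁ k, ⟨G.mul_mem (h2 (Γ.zpow_mem hγ₁ k)) hg.1, ?_⟩, _, hk, ?_⟩
    · intro γ hγ
      have hγ' : γ = γ₁ := hγ
      rw [hγ']
      exact (Commute.zpow_self γ₁ k).mul_left hc
    · simp only [Subgroup.coe_mul, Subgroup.coe_inv, Subgroup.coe_zpow, mul_inv_rev, mul_assoc]
  have hInf := hC.2.1 Γ G (Cen G {γ₁})
    {g : H | g ∈ Cen G {γ₁} ∧ g * γ₂ * g⁻¹ ∈ (Subtype.val '' F : Set H)} h3
    (fun g hg => hg.1) hi key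
  exact ⟨γ₂, hγ₂, p₂, q₂, ha₂, hlink, hP Γ G {γ₁} _ (Subtype.val '' F) γ₂ hInf
    (fun g hg => hg.1) (hF1.image _) fun g hg => hg.2⟩

end Pool.BL
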