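import Pool.Agent.Work.MP_ae1ff6_bl.Interface

/-!
# Block CY4: the cyclic order of the ends of two crossing axes
-/

open Topology Filter Set
open scoped ComplexConjugate

set_option autoImplicit false

namespace Pool.BL

open Pool.CG

theorem CY4_arc (s x y i j t v : ℝ) (hx : s ≤ x) (hy : y ≤ s + 2 * Real.pi)
    (hi : i ∈ Ico s (s + 2 * Real.pi)) (hj : j ∈ Ico s (s + 2 * Real.pi)) (hi' : i ∉ Ioo x y)
    (hj' : j ∉ Ioo x y) (ht : t ∈ Ioo x y) (hv : v ∈ Ioo x y) :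
    ¬ Link (Circle.exp i) (Circle.exp j) (Circle.exp t) (Circle.exp v) := by
  have hinj : InjOn Circle.exp (Ico s (s + 2 * Real.pi)) := Circle.exp_injOn_Ico (by linarith)
  have hsub : Ioo x y ⊆ Ico s (s + 2 * Real.pi) := fun θ hθ =>
    ⟨hx.trans hθ.1.le, lt_of_lt_of_le hθ.2 hy⟩
  intro h
  rcases h.2.2 (Circle.exp '' Ioo x y)
    (isPreconnected_Ioo.image _ Circle.exp.continuous.continuousOn)
    (mem_image_of_mem _ ht) (mem_image_of_mem _ hv) with ⟨θ, h1, h2⟩ | ⟨θ, h1, h2⟩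
  · exact hi' (hinj (hsub h1) hi h2 ▸ h1)
  · exact hj' (hinj (hsub h1) hj h2 ▸ h1)

theorem p_CY4 : Stmt_CY4 := by
  intro p q a b hpq hL
  obtain ⟨s, rfl⟩ := Circle.exp_surjective p
  obtain ⟨u, hu, rfl⟩ := ARC_surj s q
  obtain ⟨t, ht, rfl⟩ := ARC_surj s a
  obtain ⟨v, hv, rfl⟩ := ARC_surj s b
  have hpi := Real.pi_pos
  have hs : s ∈ Ico s (s + 2 * Real.pi) := ⟨le_rfl, by linarith⟩
  have hsu : s < u := lt_of_le_of_ne hu.1 fun h => hpq (congrArg _ h)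
  have hst : s < t := lt_of_le_of_ne ht.1 fun h => hL.1.1 (congrArg _ h.symm)
  have hsv : s < v := lt_of_le_of_ne hv.1 fun h => hL.2.1.1 (congrArg _ h.symm)
  have htu : t ≠ u := fun h => hL.1.2 (congrArg _ h)
  have hvu : v ≠ u := fun h => hL.2.1.2 (congrArg _ h)
  rcases lt_or_gt_of_ne htu with h1 | h1
  · rcases lt_or_gt_of_ne hvu with h2 | h2
    · exfalso
      exact CY4_arc s s u s u t v le_rfl hu.2.le hs hu (fun h => lt_irrefl _ h.1)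
        (fun h => lt_irrefl _ h.2) ⟨hst, h1⟩ ⟨hsv, h2⟩ hL
    · exact ⟨s, t, u, v, hst, h1, h2, hv.2, rfl, rfl, Or.inl ⟨rfl, rfl⟩⟩
  · rcases lt_or_gt_of_ne hvu with h2 | h2
    · exact ⟨s, v, u, t, hsv, h2, h1, ht.2, rfl, rfl, Or.inr ⟨rfl, rfl⟩⟩
    · exfalso
      exact CY4_arc s u (s + 2 * Real.pi) s u t v hu.1 le_rfl hs hu
        (fun h => lt_asymm hsu h.1) (fun h => lt_irrefl _ h.1) ⟨h1, ht.2⟩ ⟨h2, hv.2⟩ hL

end Pool.BL
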