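import Pool.Agent.Work.MP_ae1ff6_bl.Interface

/-! # Discrete groups of mapping classes with bounded lengths, block CYB -/

open Topology Filter Set
open scoped ComplexConjugate

set_option autoImplicit false

namespace Pool.BL

open Pool.CG

theorem CYB_mem (Γ : Subgroup H) (f : H) (hn : ∀ γ, γ ∈ Γ ↔ f * γ * f⁻¹ ∈ Γ) (g : H)
    (hg : g ∈ Γ ⊔ Subgroup.zpowers f) : ∃ κ ∈ Γ, ∃ n : ℤ, g = κ * f ^ n := by
  have h1 : f ∈ Subgroup.normalizer (Γ : Set H) := Subgroup.mem_normalizer_iff.2 hn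
  have h2 : Subgroup.zpowers f ≤ Subgroup.normalizer (Γ : Set H) := by
    rw [Subgroup.zpowers_le]; exact h1
  have h3 := Subgroup.coe_mul_of_right_le_normalizer_left Γ (Subgroup.zpowers f) h2
  have h4 : g ∈ (↑(Γ ⊔ Subgroup.zpowers f) : Set H) := hg
  rw [h3] at h4
  obtain ⟨κ, hκ, x, hx, rfl⟩ := h4
  obtain ⟨n, rfl⟩ := Subgroup.mem_zpowers_iff.1 hx
  exact ⟨κ, hκ, n, rfl⟩

theorem CYB_conj (Γ : Subgroup H) (f : H) (hn : ∀ γ, γ ∈ Γ ↔ f * γ * f⁻¹ ∈ Γ) (n : ℤ) (γ : H)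
    (hγ : γ ∈ Γ) : (f ^ n)⁻¹ * γ * f ^ n ∈ Γ := by
  have h1 : f ∈ Subgroup.normalizer (Γ : Set H) := Subgroup.mem_normalizer_iff.2 hn
  have h2 : (f ^ n)⁻¹ ∈ Subgroup.normalizer (Γ : Set H) := inv_mem (zpow_mem h1 n)
  have h3 := (Subgroup.mem_normalizer_iff.1 h2 γ).1 hγ
  rwa [inv_inv] at h3

/-- an element which commutes with `γ` permutes the two fixed points -/
theorem CYB_fix {γ g : H} {p q : Circle} (h : Axis γ p q) (hc : g * γ = γ * g) :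
    ({g p, g q} : Set Circle) = {p, q} := by
  have hfix : ∀ z, γ z = z → γ (g z) = g z := by
    intro z hz
    have h1 : (g * γ) z = (γ * g) z := by rw [hc]
    have h2 : g (γ z) = γ (g z) := h1
    rw [← h2, hz]
  have hp := (h.2 (g p)).1 (hfix p ((h.2 p).2 (Or.inl rfl)))
  have hq := (h.2 (g q)).1 (hfix q ((h.2 q).2 (Or.inr rfl)))
  have hne : g p ≠ g q := fun e => h.1 (g.injective e)
  rcases hp with hp | hp <;> rcases hq with hq | hq
  · exact absurd (hp.trans hq.symm) hne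
  · rw [hp, hq]
  · rw [hp, hq, Set.pair_comm]
  · exact absurd (hp.trans hq.symm) hne

theorem p_CYB : Stmt_CYB := by
  intro Γ f _ hn γ hγ p q hax hper
  refine ⟨{γ}, Set.finite_singleton _, by simpa using hγ, ?_, {1}, Set.finite_singleton _, ?_⟩
  · intro γ' hγ'
    rw [Set.mem_singleton_iff] at hγ'
    subst hγ'
    exact ⟨p, q, hax⟩
  rintro g ⟨hg, hcom⟩
  refine ⟨1, rfl, ?_⟩
  rw [inv_one, one_mul]
  have hc : g * γ = γ * g := hcom γ rfl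
  obtain ⟨κ, hκ, n, hgn⟩ := CYB_mem Γ f hn g hg
  rcases lt_trichotomy n 0 with h0 | h0 | h0
  · exfalso
    apply hper
    obtain ⟨m, hm⟩ : ∃ m : ℕ, (m : ℤ) = -n := ⟨(-n).toNat, Int.toNat_of_nonneg (by omega)⟩
    refine ⟨m, by omega, (f ^ n)⁻¹ * κ⁻¹ * f ^ n, CYB_conj Γ f hn n _ (inv_mem hκ), ?_⟩
    have e : (f ^ n)⁻¹ * κ⁻¹ * f ^ n * f ^ m = g⁻¹ := by
      rw [← zpow_natCast, hm, hgn]
      group
    rw [e]
    apply CYB_fix hax
    have : g⁻¹ * (g * γ) * g⁻¹ = g⁻¹ * (γ * g) * g⁻¹ := by rw [hc]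
    simpa [mul_assoc] using this.symm
  · rw [hgn, h0, zpow_zero, mul_one]
    exact hκ
  · exfalso
    apply hper
    obtain ⟨m, hm⟩ : ∃ m : ℕ, (m : ℤ) = n := ⟨n.toNat, Int.toNat_of_nonneg (by omega)⟩
    refine ⟨m, by omega, κ, hκ, ?_⟩
    have e : κ * f ^ m = g := by rw [hgn, ← hm, zpow_natCast]
    rw [e]
    exact CYB_fix hax hc

end Pool.BL
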