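import Pool.Agent.Work.MP_ae1ff6_bl.Interface

/-! # Block DSR (helper71) -/

open Topology Filter Set
open scoped ComplexConjugate

set_option autoImplicit false

namespace Pool.BL

open Pool.CG

theorem p_DSR : Stmt_DSR := by
  intro Γ hΓ m R
  by_contra hinf
  have hinf' : {γ : Γ | ∃ α β : ℂ, Par (m.ρ γ) α β ∧ ‖β‖ ≤ R}.Infinite := hinf
  have hinj := RL2_inj Γ m.ρ m.π m.surj m.equi
  have hT := hinf'.image (hinj.injOn (s := {γ : Γ | ∃ α β : ℂ, Par (m.ρ γ) α β ∧ ‖β‖ ≤ R}))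
  obtain ⟨ε, hε, hdis⟩ := hΓ.discrete
  obtain ⟨δ, hδ, hsm⟩ := RL2_small Γ m.ρ m.π m.cont m.surj m.equi ε hε
  obtain ⟨g1, hg1, g2, hg2, hne, hd⟩ := pig _ R hT (by
    rintro g ⟨γ, ⟨α, β, h1, h2⟩, rfl⟩
    exact ⟨α, β, h1, h2⟩) δ hδ
  obtain ⟨k1, -, rfl⟩ := hg1
  obtain ⟨k2, -, rfl⟩ := hg2
  have h1 : ((k1⁻¹ * k2 : Γ) : H) = 1 := by
    refine hdis _ (k1⁻¹ * k2).2 (hsm (k1⁻¹ * k2) fun x => ?_)
    rw [map_mul, map_inv]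
    exact hd x
  apply hne
  have h2 : k1⁻¹ * k2 = 1 := Subtype.ext h1
  rw [inv_mul_eq_one] at h2
  rw [h2]

end Pool.BL
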