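import Pool.Agent.Work.MP_ae1ff6_bl.Interface

/-! # Block DYN (helper71) -/

open Topology Filter Set
open scoped ComplexConjugate

set_option autoImplicit false

namespace Pool.BL

open Pool.CG

theorem DYN_ne (γ : H) (α β : ℂ) (hp : Par γ α β) (p q : Circle) (hax : Axis γ p q) :
    ‖conj β * (q : ℂ) + conj α‖ ≠ ‖conj β * (p : ℂ) + conj α‖ := by
  intro h5
  have hpf : γ p = p := (hax.2 p).2 (Or.inl rfl)
  have hqf : γ q = q := (hax.2 q).2 (Or.inr rfl)
  obtain ⟨z, hz1, hz2⟩ := RLZ_third p q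
  obtain ⟨a, ha⟩ := Complex.conj_eq_iff_real.1 (RL2_real γ α β hp p hpf)
  obtain ⟨b, hb⟩ := Complex.conj_eq_iff_real.1 (RL2_real γ α β hp q hqf)
  have h6 := RL2_prod γ α β hp p q hpf hqf hax.1
  rw [ha, hb, ← Complex.ofReal_mul] at h6
  have h7 : a * b = 1 := by exact_mod_cast h6
  rw [ha, hb, Complex.norm_real, Complex.norm_real, Real.norm_eq_abs, Real.norm_eq_abs] at h5
  have h8 : a = b := by
    rcases abs_eq_abs.1 h5 with h8 | h8
    · exact h8.symm
    · rw [h8] at h7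
      nlinarith [mul_self_nonneg a]
  have h9 : conj β * ((p : ℂ) - (q : ℂ)) = 0 := by
    have h10 : conj β * (p : ℂ) + conj α = conj β * (q : ℂ) + conj α := by rw [ha, hb, h8]
    linear_combination h10
  have hpq : (p : ℂ) - (q : ℂ) ≠ 0 := by
    rw [sub_ne_zero]
    exact fun h => hax.1 (Circle.ext h)
  have h10 : conj β = 0 := (mul_eq_zero.1 h9).resolve_right hpq
  have h11 : β = 0 := by
    rw [← Complex.conj_conj β, h10, map_zero]
  have h12 : conj α = (a : ℂ) := by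
    rw [← ha, h10, zero_mul, zero_add]
  have h13 : α = (a : ℂ) := by
    rw [← Complex.conj_conj α, h12, Complex.conj_ofReal]
  have ha0 : (a : ℂ) ≠ 0 := by
    intro h
    have h14 : a = 0 := by exact_mod_cast h
    rw [h14, zero_mul] at h7
    exact zero_ne_one h7
  have h14 : γ z = z := by
    have h15 := hp.2 z
    rw [h10, h11, h12, h13, zero_mul, zero_add, add_zero, mul_comm] at h15
    exact Circle.ext (mul_left_cancel₀ ha0 h15)
  rcases (hax.2 z).1 h14 with h | h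
  · exact hz1 h
  · exact hz2 h

theorem DYN_two (z w : Circle) : dist z w ≤ 2 := by
  have h1 : dist z w = dist (z : ℂ) (w : ℂ) := rfl
  rw [h1, dist_eq_norm]
  refine (norm_sub_le _ _).trans ?_
  rw [Circle.norm_coe, Circle.norm_coe]
  norm_num

theorem DYN_pow (γ : H) (p : Circle) (hpf : γ p = p) (n : ℕ) : (γ ^ n) p = p := by
  induction n with
  | zero => rfl
  | succ n ih =>
    rw [pow_succ']
    change γ ((γ ^ n) p) = p
    rw [ih, hpf]

theorem DYN_lim (c K : ℝ) (hc0 : 0 ≤ c) (hc1 : c < 1) (f : ℕ → Circle) (p : Circle)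
    (h : ∀ n, dist (f n) p ≤ K * c ^ n) : Tendsto f atTop (𝓝 p) := by
  rw [tendsto_iff_dist_tendsto_zero]
  have h1 : Tendsto (fun n : ℕ => K * c ^ n) atTop (𝓝 0) := by
    have h2 := (tendsto_pow_atTop_nhds_zero_of_lt_one hc0 hc1).const_mul K
    rwa [mul_zero] at h2
  exact squeeze_zero (fun n => dist_nonneg) h h1

theorem DYN_half (N : H) (α β : ℂ) (hp : Par N α β) (p q : Circle) (hpf : N p = p)
    (hqf : N q = q)
    (hlt : ‖conj β * (q : ℂ) + conj α‖ < ‖conj β * (p : ℂ) + conj α‖) :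
    (∀ z, z ≠ q → Tendsto (fun n : ℕ => (N ^ n) z) atTop (𝓝 p)) ∧
      ∀ z, z ≠ p → Tendsto (fun n : ℕ => (N⁻¹ ^ n) z) atTop (𝓝 q) := by
  obtain ⟨hD, -⟩ := mb1.2 N α β hp
  have hDp : 0 < ‖conj β * (p : ℂ) + conj α‖ := norm_pos_iff.2 (hD p)
  have hDq : 0 < ‖conj β * (q : ℂ) + conj α‖ := norm_pos_iff.2 (hD q)
  have hc0 : 0 ≤ ‖conj β * (q : ℂ) + conj α‖ / ‖conj β * (p : ℂ) + conj α‖ := by positivity
  have hc1 : ‖conj β * (q : ℂ) + conj α‖ / ‖conj β * (p : ℂ) + conj α‖ < 1 :=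
    (div_lt_one hDp).2 hlt
  refine ⟨fun z hz => ?_, fun z hz => ?_⟩
  · refine DYN_lim _ (2 * (dist z p / dist z q)) hc0 hc1 _ _ fun n => ?_
    have h1 := RL2_scale mb1 N α β hp p q hpf hqf z hz n
    have h2 : (N ^ n) z ≠ q := fun h => hz ((N ^ n).injective (h.trans (DYN_pow N q hqf n).symm))
    have h3 : 0 < dist ((N ^ n) z) q := dist_pos.2 h2
    rw [div_eq_iff h3.ne'] at h1
    rw [h1]
    have h4 := DYN_two ((N ^ n) z) q
    have h5 : 0 ≤ dist z p / dist z q *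
        (‖conj β * (q : ℂ) + conj α‖ / ‖conj β * (p : ℂ) + conj α‖) ^ n := by positivity
    nlinarith
  · refine DYN_lim _ (2 * (dist z q / dist z p)) hc0 hc1 _ _ fun n => ?_
    have hw : (N ^ n) ((N⁻¹ ^ n) z) = z := by
      have h1 : (N ^ n) * (N⁻¹ ^ n) = 1 := by
        rw [inv_pow, mul_inv_cancel]
      exact congrArg (fun g : H => g z) h1
    have hwp : (N⁻¹ ^ n) z ≠ p := by
      intro h
      rw [h, DYN_pow N p hpf n] at hw
      exact hz hw.symm
    have h1 := RL2_scale mb1 N α β hp q p hqf hpf ((N⁻¹ ^ n) z) hwp n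
    rw [hw] at h1
    have h3 : 0 < dist ((N⁻¹ ^ n) z) p := dist_pos.2 hwp
    have h6 : dist ((N⁻¹ ^ n) z) q / dist ((N⁻¹ ^ n) z) p = dist z q / dist z p *
        (‖conj β * (q : ℂ) + conj α‖ / ‖conj β * (p : ℂ) + conj α‖) ^ n := by
      rw [h1, mul_assoc, ← mul_pow]
      rw [div_mul_div_comm, mul_comm ‖conj β * (q : ℂ) + conj α‖, div_self
        (mul_pos hDp hDq).ne', one_pow, mul_one]
    rw [div_eq_iff h3.ne'] at h6
    rw [h6]
    have h4 := DYN_two ((N⁻¹ ^ n) z) p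
    have h5 : 0 ≤ dist z q / dist z p *
        (‖conj β * (q : ℂ) + conj α‖ / ‖conj β * (p : ℂ) + conj α‖) ^ n := by positivity
    nlinarith

theorem p_DYN : Stmt_DYN := by
  intro N p q hm hax
  obtain ⟨α, β, hp⟩ := (mb1.1 N).1 hm
  have hpf : N p = p := (hax.2 p).2 (Or.inl rfl)
  have hqf : N q = q := (hax.2 q).2 (Or.inr rfl)
  rcases lt_or_gt_of_ne (DYN_ne N α β hp p q hax) with h | h
  · exact Or.inl (DYN_half N α β hp p q hpf hqf h)
  · exact Or.inr (DYN_half N α β hp q p hqf hpf h)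

end Pool.BL
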