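import Pool.Agent.Work.MP_ae1ff6_bl.Interface

/-!
# Block EX1: adding a geodesic with an end in a given open set
-/

open Topology Filter Set
open scoped ComplexConjugate

set_option autoImplicit false

namespace Pool.BL

open Pool.CG

theorem EX1_pt (U : Set Circle) (hU : IsOpen U) (a b θ : ℝ) (h1 : a ≤ θ) (h2 : θ < b)
    (h3 : Circle.exp θ ∈ U) : (U ∩ Circle.exp '' Ioo a b).Nonempty := by
  have hc : ContinuousAt (fun x : ℝ => Circle.exp x) θ := Circle.exp.continuous.continuousAt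
  have h4 : ∀ᶠ x in 𝓝 θ, Circle.exp x ∈ U := hc.eventually (hU.mem_nhds h3)
  have h5 : ∀ᶠ x in 𝓝[>] θ, Circle.exp x ∈ U := h4.filter_mono nhdsWithin_le_nhds
  have h6 : ∀ᶠ x in 𝓝[>] θ, x ∈ Ioo θ b := Ioo_mem_nhdsGT h2
  obtain ⟨x, hx1, hx2⟩ := (h5.and h6).exists
  exact ⟨Circle.exp x, hx1, x, ⟨lt_of_le_of_lt h1 hx2.1, hx2.2⟩, rfl⟩

theorem EX1_per (θ : ℝ) : Circle.exp (θ + 2 * Real.pi) = Circle.exp θ := by
  rw [Circle.exp_add, Circle.exp_two_pi, mul_one]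

/-- one of the four arcs -/
theorem EX1_arc (hEXT : Stmt_EXT) (Γ G : Subgroup H) (m : HypMetric Γ) (hΓ : FirstKind Γ)
    (hΓG : Γ ≤ G) (hn : ∀ g ∈ G, ∀ γ ∈ Γ, g * γ * g⁻¹ ∈ Γ) (hb : BdM Γ G m) (B : Set H)
    (hinf : InfMod Γ (Cen G B)) (U : Set Circle) (hU : IsOpen U) (s t u v : ℝ) (h1 : s < t)
    (h2 : t < u) (h3 : u < v) (h4 : v < s + 2 * Real.pi)
    (hfix : ∀ g ∈ Cen G B, g (Circle.exp s) = Circle.exp s ∧ g (Circle.exp t) = Circle.exp t ∧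
      g (Circle.exp u) = Circle.exp u ∧ g (Circle.exp v) = Circle.exp v)
    (hne : (U ∩ Circle.exp '' Ioo s t).Nonempty) :
    ∃ e ∈ Γ, ∃ x ∈ U, ∃ y : Circle, Axis e x y ∧ InfMod Γ (Cen G (insert e B)) := by
  have ho1 : IsOpen (Circle.exp '' Ioo s t) := (blk_ARC s t h1 (by linarith)).1
  have ho2 : IsOpen (Circle.exp '' Ioo u v) := (blk_ARC u v h3 (by linarith)).1
  obtain ⟨e, he, x, ⟨hx1, hx2⟩, y, hy, hax⟩ := dns Γ hΓ (U ∩ Circle.exp '' Ioo s t)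
    (Circle.exp '' Ioo u v) (hU.inter ho1) hne ho2 ((nonempty_Ioo.2 h3).image _)
  exact ⟨e, he, x, hx1, y, hax, hEXT Γ G m hΓ hΓG hn hb B s t u v h1 h2 h3 h4 hinf hfix e he
    x hx2 y hy hax⟩

theorem p_EX1 (hFXP : Stmt_FXP) (hEXT : Stmt_EXT) (hCY4 : Stmt_CY4) : Stmt_EX1 := by
  intro Γ G m hΓ hΓG hn hb γ₁ γ₂ p₁ q₁ p₂ q₂ hγ₁ hγ₂ ha₁ ha₂ hl B hB₁ hB₂ hinf U hU hUne
  obtain ⟨s, t, u, v, h1, h2, h3, h4, hs, hu, htv⟩ := hCY4 p₁ q₁ p₂ q₂ ha₁.1 hl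
  have hfix : ∀ g ∈ Cen G B, g (Circle.exp s) = Circle.exp s ∧
      g (Circle.exp t) = Circle.exp t ∧ g (Circle.exp u) = Circle.exp u ∧
      g (Circle.exp v) = Circle.exp v := by
    intro g hg
    obtain ⟨f1, f2⟩ := hFXP γ₁ g p₁ q₁ (hΓ.mob _ hγ₁) ha₁ (hg.2 _ hB₁)
    obtain ⟨f3, f4⟩ := hFXP γ₂ g p₂ q₂ (hΓ.mob _ hγ₂) ha₂ (hg.2 _ hB₂)
    rw [hs, hu]
    rcases htv with ⟨ht, hv⟩ | ⟨ht, hv⟩
    · rw [ht, hv]
      exact ⟨f1, f3, f2, f4⟩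
    · rw [ht, hv]
      exact ⟨f1, f4, f2, f3⟩
  obtain ⟨z, hz⟩ := hUne
  obtain ⟨θ, ⟨hθ1, hθ2⟩, rfl⟩ := ARC_surj s z
  have es := EX1_per s
  have et := EX1_per t
  have eu := EX1_per u
  rcases lt_or_ge θ t with c1 | c1
  · exact EX1_arc hEXT Γ G m hΓ hΓG hn hb B hinf U hU s t u v h1 h2 h3 h4 hfix
      (EX1_pt U hU s t θ hθ1 c1 hz)
  rcases lt_or_ge θ u with c2 | c2
  · refine EX1_arc hEXT Γ G m hΓ hΓG hn hb B hinf U hU t u v (s + 2 * Real.pi) h2 h3 h4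
      (by linarith) ?_ (EX1_pt U hU t u θ c1 c2 hz)
    intro g hg
    obtain ⟨f1, f2, f3, f4⟩ := hfix g hg
    rw [es]
    exact ⟨f2, f3, f4, f1⟩
  rcases lt_or_ge θ v with c3 | c3
  · refine EX1_arc hEXT Γ G m hΓ hΓG hn hb B hinf U hU u v (s + 2 * Real.pi)
      (t + 2 * Real.pi) h3 h4 (by linarith) (by linarith) ?_ (EX1_pt U hU u v θ c2 c3 hz)
    intro g hg
    obtain ⟨f1, f2, f3, f4⟩ := hfix g hg
    rw [es, et]
    exact ⟨f3, f4, f1, f2⟩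
  · refine EX1_arc hEXT Γ G m hΓ hΓG hn hb B hinf U hU v (s + 2 * Real.pi)
      (t + 2 * Real.pi) (u + 2 * Real.pi) h4 (by linarith) (by linarith) (by linarith) ?_
      (EX1_pt U hU v (s + 2 * Real.pi) θ c3 hθ2 hz)
    intro g hg
    obtain ⟨f1, f2, f3, f4⟩ := hfix g hg
    rw [es, et, eu]
    exact ⟨f4, f1, f2, f3⟩

end Pool.BL
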