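import Pool.Agent.Work.MP_ae1ff6_bl.Interface

/-!
# Block EXT: adding a closed geodesic with ends in two disjoint arcs
-/

open Topology Filter Set
open scoped ComplexConjugate

set_option autoImplicit false

namespace Pool.BL

open Pool.CG

theorem EXT_arc (s x y i j t v : ℝ) (hx : s ≤ x) (hy : y ≤ s + 2 * Real.pi)
    (hi : i ∈ Ico s (s + 2 * Real.pi)) (hj : j ∈ Ico s (s + 2 * Real.pi)) (hi' : i ∉ Ioo x y)
    (hj' : j ∉ Ioo x y) (ht : t ∈ Ioo x y) (hv : v ∈ Ioo x y) :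
    ¬ Link (Circle.exp i) (Circle.exp j) (Circle.exp t) (Circle.exp v) := by
  have hinj : InjOn Circle.exp (Ico s (s + 2 * Real.pi)) := Circle.exp_injOn_Ico (by linarith)
  have hsub : Ioo x y ⊆ Ico s (s + 2 * Real.pi) := fun θ hθ =>
    ⟨hx.trans hθ.1.le, lt_of_lt_of_le hθ.2 hy⟩
  intro h
  rcases h.2.2 (Circle.exp '' Ioo x y)
    (isPreconnected_Ioo.image _ Circle.exp.continuous.continuousOn)
    (mem_image_of_mem _ ht) (mem_image_of_mem _ hv) with ⟨θ, h1, h2⟩ | ⟨θ, h1, h2⟩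
  · exact hi' (hinj (hsub h1) hi h2 ▸ h1)
  · exact hj' (hinj (hsub h1) hj h2 ▸ h1)

/-- a homeomorphism which fixes `exp s`, `exp t` and a point of the complement of the arc maps the
arc to itself -/
theorem EXT_map (g : H) (s t w : ℝ) (hst : s < t) (htw : t < w) (hw : w < s + 2 * Real.pi)
    (gs : g (Circle.exp s) = Circle.exp s) (gt : g (Circle.exp t) = Circle.exp t)
    (gw : g (Circle.exp w) = Circle.exp w) (x : Circle) (hx : x ∈ Circle.exp '' Ioo s t) :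
    g x ∈ Circle.exp '' Icc s t := by
  obtain ⟨θ, hθ, hθx⟩ := ARC_surj s (g x)
  rcases le_or_gt θ t with h | h
  · exact ⟨θ, ⟨hθ.1, h⟩, hθx⟩
  · exfalso
    have h1 := (blk_ARC s t hst (htw.trans hw)).2 x hx (Circle.exp w)
      (mem_image_of_mem _ ⟨htw, hw⟩)
    have h2 := blk_LHI g _ _ _ _ h1
    rw [gs, gt, gw, ← hθx] at h2
    exact EXT_arc s t (s + 2 * Real.pi) s t θ w hst.le le_rfl ⟨le_rfl, by linarith⟩
      ⟨hst.le, htw.trans hw⟩ (fun h3 => lt_asymm hst h3.1) (fun h3 => lt_irrefl _ h3.1)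
      ⟨h, hθ.2⟩ ⟨htw, hw⟩ h2

theorem EXT_axis (g e : H) (x y : Circle) (h : Axis e x y) :
    Axis (g * e * g⁻¹) (g x) (g y) := by
  refine ⟨fun h1 => h.1 (g.injective h1), fun z => ?_⟩
  have h1 : (g * e * g⁻¹) z = z ↔ e (g⁻¹ z) = g⁻¹ z := by
    constructor
    · intro h2
      have h3 : g (e (g⁻¹ z)) = z := h2
      have h4 : g⁻¹ (g (e (g⁻¹ z))) = g⁻¹ z := congrArg _ h3
      exact (g.symm_apply_apply (e (g⁻¹ z))).symm.trans h4
    · intro h2
      show g (e (g⁻¹ z)) = z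
      rw [h2]
      exact g.apply_symm_apply z
  have h5 : ∀ w, g⁻¹ z = w ↔ z = g w := by
    intro w
    constructor
    · intro h2
      rw [← h2]
      exact (g.apply_symm_apply z).symm
    · intro h2
      rw [h2]
      exact g.symm_apply_apply w
  rw [h1, h.2, h5, h5]

theorem p_EXT (hFN2 : Stmt_FN2) (hPIN : Stmt_PIN) : Stmt_EXT := by
  classical
  intro Γ G m h1 _ h3 hm B s t u v hst htu huv hvs hi hfix e he x hx y hy hxy
  have hpi := Real.pi_pos
  obtain ⟨M, hM⟩ := hm ⟨e, he⟩ ⟨x, y, hxy⟩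
  have hI : IsClosed (Circle.exp '' Icc s t) :=
    (isCompact_Icc.image Circle.exp.continuous).isClosed
  have hJ : IsClosed (Circle.exp '' Icc u v) :=
    (isCompact_Icc.image Circle.exp.continuous).isClosed
  have hinj : InjOn Circle.exp (Ico s (s + 2 * Real.pi)) := Circle.exp_injOn_Ico (by linarith)
  have hd : Disjoint (Circle.exp '' Icc s t) (Circle.exp '' Icc u v) := by
    rw [Set.disjoint_left]
    rintro z ⟨a, ha, rfl⟩ ⟨b, hb, hab⟩
    have h4 : b = a := hinj ⟨by linarith [hb.1], by linarith [hb.2]⟩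
      ⟨ha.1, by linarith [ha.2]⟩ hab
    linarith [ha.2, hb.1]
  have hF := hFN2 Γ h1 m _ _ hI hJ hd M
  refine hPIN Γ G B (Cen G B) _ e hi Subset.rfl (hF.image (fun γ : Γ => (γ : H))) ?_
  intro g hg
  obtain ⟨gs, gt, gu, gv⟩ := hfix g hg
  refine ⟨⟨g * e * g⁻¹, h3 g hg.1 e he⟩, ⟨g x, ?_, g y, ?_, EXT_axis g e x y hxy,
    hM g hg.1 ⟨g * e * g⁻¹, h3 g hg.1 e he⟩ rfl⟩, rfl⟩
  · exact EXT_map g s t u hst htu (huv.trans hvs) gs gt gu x hx
  · have gs' : g (Circle.exp (s + 2 * Real.pi)) = Circle.exp (s + 2 * Real.pi) := by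
      rw [Circle.exp_add_two_pi, gs]
    exact EXT_map g u v (s + 2 * Real.pi) huv hvs (by linarith) gu gv gs' y hy

end Pool.BL
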