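import Pool.Agent.Work.MP_ae1ff6_bl.Interface

/-! # Block FN2 (MP_ae1ff6, THEOREM BL, helper95) -/

open Topology Filter Set
open scoped ComplexConjugate

set_option autoImplicit false

namespace Pool.BL

open Pool.CG

theorem p_FN2 (hH : Stmt_HYR) (hB : Stmt_BDB) (hD : Stmt_DSR) : Stmt_FN2 := by
  intro Γ hΓ m I J hI hJ hIJ M
  have hI' : IsCompact (m.π ⁻¹' I) := (hI.preimage m.cont).isCompact
  have hJ' : IsClosed (m.π ⁻¹' J) := hJ.preimage m.cont
  have hd : Disjoint (m.π ⁻¹' I) (m.π ⁻¹' J) := hIJ.preimage _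
  obtain ⟨r, hr, hrr⟩ := Metric.exists_pos_forall_lt_edist hI' hJ' hd
  have hr' : (0 : ℝ) < r := hr
  refine (hD Γ hΓ m (2 * (M + 1) / r)).subset ?_
  rintro γ ⟨p, hp, q, hq, hax, htr⟩
  obtain ⟨p', q', hax', hp', hq'⟩ := hH Γ hΓ m γ p q hax
  have h1 : m.π p' = p := (hp' p').2 rfl
  have h2 : m.π q' = q := (hq' q').2 rfl
  have h3 := hrr p' (by rw [mem_preimage, h1]; exact hp) q' (by rw [mem_preimage, h2]; exact hq)
  have h4 : (r : ℝ) ≤ dist p' q' := by
    rw [edist_nndist] at h3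
    have h5 : r < nndist p' q' := by exact_mod_cast h3
    rw [← coe_nndist]
    exact_mod_cast h5.le
  obtain ⟨α, β, hpar, hb⟩ := hB (m.ρ γ) p' q' M r hax' htr hr' h4
  exact ⟨α, β, hpar, by rw [le_div_iff₀ hr']; exact hb⟩

end Pool.BL
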