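import Pool.Agent.Work.MP_ae1ff6_bl.Interface

/-!
# Block FNL: finitely many geodesics of bounded length meet a given one
-/

open Topology Filter Set
open scoped ComplexConjugate

set_option autoImplicit false

namespace Pool.BL

open Pool.CG

theorem FNL_conj {g h : H} {p q : Circle} (hax : Axis h p q) :
    Axis (g * h * g⁻¹) (g p) (g q) := by
  refine ⟨fun e => hax.1 (g.injective e), fun z => ?_⟩
  have e1 : (g * h * g⁻¹) z = g (h (g.symm z)) := rfl
  rw [e1]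
  constructor
  · intro hz
    have h1 : h (g.symm z) = g.symm z := by
      apply g.injective
      rw [hz, g.apply_symm_apply]
    rcases (hax.2 _).1 h1 with h2 | h2
    · left
      rw [← h2, g.apply_symm_apply]
    · right
      rw [← h2, g.apply_symm_apply]
  · rintro (hz | hz)
    · rw [hz, g.symm_apply_apply, (hax.2 p).2 (Or.inl rfl)]
    · rw [hz, g.symm_apply_apply, (hax.2 q).2 (Or.inr rfl)]

theorem p_FNL (h1 : Stmt_HYR) (h2 : Stmt_LNK) (h3 : Stmt_TCJ) (h4 : Stmt_BDB) (h5 : Stmt_DSR) :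
    Stmt_FNL := by
  intro Γ hΓ m δ r s hδ M
  obtain ⟨r', s', hax, hr, hs⟩ := h1 Γ hΓ m δ r s hδ
  obtain ⟨ρ₀, hρ₀, hH⟩ := blk_HYP mb1 (m.ρ δ) r' s' (m.mob δ) hax
  obtain ⟨ε₁, hε₁, hL⟩ := blk_LUB blk_LFV r' s' ρ₀ hρ₀
  have hd : 0 < dist r' s' := dist_pos.2 hax.1
  set ε : ℝ := min ε₁ (dist r' s') with hεdef
  have hε : 0 < ε := lt_min hε₁ hd
  refine ⟨{γ : Γ | ∃ α β : ℂ, Par (m.ρ γ) α β ∧ ‖β‖ ≤ 2 * (M + 1) / ε}, h5 Γ hΓ m _, ?_⟩
  intro γ p q hγ hor htr
  obtain ⟨p', q', hax2, hp, hq⟩ := h1 Γ hΓ m γ p q hγ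
  rcases hor with hl | hset
  · -- the geodesics cross
    have hl' : Link p' q' r' s' := h2 m.π p q r s p' q' r' s' m.cont hp hq hr hs hl
    have hpr : p' ≠ r' := fun e => hl'.1.1 e.symm
    have hps : p' ≠ s' := fun e => hl'.2.1.1 e.symm
    obtain ⟨k, hk1, hk2⟩ := hH p' hpr hps
    have hfr : ((m.ρ δ) ^ k) r' = r' := CDB_fix ((hax.2 r').2 (Or.inl rfl)) k
    have hfs : ((m.ρ δ) ^ k) s' = s' := CDB_fix ((hax.2 s').2 (Or.inr rfl)) k
    have hl2 := blk_LHI ((m.ρ δ) ^ k) p' q' r' s' hl'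
    rw [hfr, hfs] at hl2
    have hdist := hL _ _ hk1 hk2 hl2
    refine ⟨k, ?_⟩
    have e1 : m.ρ (δ ^ k * γ * (δ ^ k)⁻¹) = (m.ρ δ) ^ k * m.ρ γ * ((m.ρ δ) ^ k)⁻¹ := by
      rw [map_mul, map_mul, map_inv, map_zpow]
    have hmob : IsMob ((m.ρ δ) ^ k) := by
      rw [← map_zpow]
      exact m.mob _
    have hax3 : Axis (m.ρ (δ ^ k * γ * (δ ^ k)⁻¹)) (((m.ρ δ) ^ k) p') (((m.ρ δ) ^ k) q') := by
      rw [e1]
      exact FNL_conj hax2
    have htr3 : TrLe (m.ρ (δ ^ k * γ * (δ ^ k)⁻¹)) M := by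
      rw [e1]
      exact h3 _ _ M hmob htr
    obtain ⟨α, β, hab, hb⟩ := h4 _ _ _ M ε hax3 htr3 hε ((min_le_left _ _).trans hdist)
    exact ⟨α, β, hab, (le_div_iff₀ hε).2 hb⟩
  · -- the geodesics are equal
    have hdist : dist r' s' ≤ dist p' q' := by
      have hp0 : p ∈ ({r, s} : Set Circle) := hset ▸ Set.mem_insert p {q}
      have hq0 : q ∈ ({r, s} : Set Circle) := hset ▸ Set.mem_insert_of_mem p rfl
      have hπr : m.π r' = r := (hr r').2 rfl
      have hπs : m.π s' = s := (hs s').2 rfl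
      have hpq : p ≠ q := hγ.1
      rcases hp0 with hp1 | hp1
      · have hq1 : q = s := by
          rcases hq0 with hq1 | hq1
          · exact absurd (hp1.trans hq1.symm) hpq
          · exact hq1
        have e1 : r' = p' := (hp r').1 (hπr.trans hp1.symm)
        have e2 : s' = q' := (hq s').1 (hπs.trans hq1.symm)
        rw [e1, e2]
      · have hp2 : p = s := hp1
        have hq1 : q = r := by
          rcases hq0 with hq1 | hq1
          · exact hq1
          · exact absurd (hp2.trans (show q = s from hq1).symm) hpq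
        have e1 : r' = q' := (hq r').1 (hπr.trans hq1.symm)
        have e2 : s' = p' := (hp s').1 (hπs.trans hp2.symm)
        rw [e1, e2, dist_comm]
    refine ⟨0, ?_⟩
    rw [zpow_zero, one_mul, inv_one, mul_one]
    obtain ⟨α, β, hab, hb⟩ := h4 _ _ _ M ε hax2 htr hε ((min_le_right _ _).trans hdist)
    exact ⟨α, β, hab, (le_div_iff₀ hε).2 hb⟩

end Pool.BL
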