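import Pool.Agent.Work.MP_ae1ff6_bl.Interface

open Topology Filter Set
open scoped ComplexConjugate

set_option autoImplicit false

namespace Pool.BL

open Pool.CG

theorem FXP_third (a b : Circle) : ∃ z : Circle, z ≠ a ∧ z ≠ b := by
  have h1 : (1 : Circle) ≠ Circle.exp Real.pi := by
    intro h
    have h2 := congrArg (fun z : Circle => (z : ℂ)) h
    simp only [Circle.coe_one, Circle.coe_exp, Complex.exp_pi_mul_I] at h2
    norm_num at h2
  have hI : ((Circle.exp (Real.pi / 2) : Circle) : ℂ) = Complex.I := by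
    rw [Circle.coe_exp]
    push_cast
    exact Complex.exp_pi_div_two_mul_I
  have h2 : (1 : Circle) ≠ Circle.exp (Real.pi / 2) := by
    intro h
    have h3 := congrArg (fun z : Circle => (z : ℂ)) h
    simp only [Circle.coe_one, hI] at h3
    have h4 := congrArg Complex.re h3
    norm_num at h4
  have h3 : (Circle.exp Real.pi) ≠ Circle.exp (Real.pi / 2) := by
    intro h
    have h4 := congrArg (fun z : Circle => (z : ℂ)) h
    simp only [Circle.coe_exp, Complex.exp_pi_mul_I] at h4
    rw [← Circle.coe_exp, hI] at h4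
    have h5 := congrArg Complex.re h4
    norm_num at h5
  by_contra hcon
  push Not at hcon
  by_cases e1 : (1 : Circle) = a
  · have e2 := hcon (Circle.exp Real.pi) (fun h => h1 (e1.trans h.symm))
    have e3 := hcon (Circle.exp (Real.pi / 2)) (fun h => h2 (e1.trans h.symm))
    exact h3 (e2.trans e3.symm)
  · have e2 := hcon 1 e1
    by_cases e3 : Circle.exp Real.pi = a
    · have e4 := hcon (Circle.exp (Real.pi / 2)) (fun h => h3 (e3.trans h.symm))
      exact h2 (e2.trans e4.symm)
    · exact h1 (e2.trans (hcon _ e3).symm)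

theorem FXP_fix (N g : H) (p q : Circle) (hN : ∀ z, z ≠ q →
    Tendsto (fun n : ℕ => (N ^ n) z) atTop (𝓝 p)) (hc : Commute g N) : g p = p := by
  obtain ⟨z, hz1, hz2⟩ := FXP_third q (g⁻¹ q)
  have hz3 : g z ≠ q := by
    intro h
    apply hz2
    rw [← h]
    exact (g.symm_apply_apply z).symm
  have h1 : Tendsto (fun n : ℕ => g ((N ^ n) z)) atTop (𝓝 (g p)) :=
    (g.continuous.tendsto p).comp (hN z hz1)
  have h2 : (fun n : ℕ => g ((N ^ n) z)) = fun n : ℕ => (N ^ n) (g z) := by
    funext n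
    have h3 : g * N ^ n = N ^ n * g := hc.pow_right n
    have h4 : (g * N ^ n) z = (N ^ n * g) z := by rw [h3]
    exact h4
  rw [h2] at h1
  exact tendsto_nhds_unique h1 (hN (g z) hz3)

theorem p_FXP (hDYN : Stmt_DYN) : Stmt_FXP := by
  intro γ g p q hM hA hc
  have hc1 : Commute g γ := hc
  have hc2 : Commute g γ⁻¹ := hc1.inv_right
  rcases hDYN γ p q hM hA with ⟨h1, h2⟩ | ⟨h1, h2⟩
  · exact ⟨FXP_fix γ g p q h1 hc1, FXP_fix γ⁻¹ g q p h2 hc2⟩
  · exact ⟨FXP_fix γ⁻¹ g p q h2 hc2, FXP_fix γ g q p h1 hc1⟩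

end Pool.BL
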