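import Pool.Agent.Work.MP_ae1ff6_bl.Interface

/-!
# Block HYR: hyperbolic elements are hyperbolic for every metric
-/

open Topology Filter Set
open scoped ComplexConjugate

set_option autoImplicit false

namespace Pool.BL

open Pool.CG

theorem p_HYR (hDYN : Stmt_DYN) (hPRB : Stmt_PRB) : Stmt_HYR := by
  intro Γ hΓ m γ r s hax
  obtain ⟨hN1, x, hx, -⟩ := RL2_fp Γ m.ρ m.π m.cont m.surj m.equi mb1 pig
    (blk_ELL mb1 (blk_MB2 mb1)) Γ hΓ le_rfl m.mob γ γ.2 r s hax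
  have hfix : ∀ w, (w = r ∨ w = s) → (γ : H) w = w := fun w hw => (hax.2 w).2 hw
  have hfixi : ∀ w, (w = r ∨ w = s) → ((γ⁻¹ : Γ) : H) w = w := by
    intro w hw
    have h1 := congrArg (fun z => ((γ⁻¹ : Γ) : H) z) (hfix w hw)
    have h2 : ((γ⁻¹ : Γ) : H) ((γ : H) w) = w := by
      change (((γ⁻¹ : Γ) : H) * (γ : H)) w = w
      rw [Subgroup.coe_inv, inv_mul_cancel]
      rfl
    have h3 : ((γ⁻¹ : Γ) : H) ((γ : H) w) = ((γ⁻¹ : Γ) : H) w := h1
    rw [← h3, h2]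
  have hpn : ∀ z, (m.π z = r ∨ m.π z = s) → ∀ n : ℕ, m.π (((m.ρ γ) ^ n) z) = m.π z := by
    intro z hz n
    induction n with
    | zero => rfl
    | succ n ih =>
      have e : ((m.ρ γ) ^ (n + 1)) z = (m.ρ γ) (((m.ρ γ) ^ n) z) := by
        rw [pow_succ']
        rfl
      rw [e, m.equi, ih, hfix _ hz]
  have hpi : ∀ z, (m.π z = r ∨ m.π z = s) → ∀ n : ℕ, m.π (((m.ρ γ)⁻¹ ^ n) z) = m.π z := by
    intro z hz n
    induction n with
    | zero => rfl
    | succ n ih =>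
      have e : ((m.ρ γ)⁻¹ ^ (n + 1)) z = (m.ρ γ⁻¹) (((m.ρ γ)⁻¹ ^ n) z) := by
        rw [pow_succ', map_inv]
        rfl
      rw [e, m.equi, ih, hfixi _ hz]
  have hlim : ∀ z x', (m.π z = r ∨ m.π z = s) →
      Tendsto (fun n : ℕ => ((m.ρ γ) ^ n) z) atTop (𝓝 x') → m.π z = m.π x' := by
    intro z x' hz ht
    have h1 := (m.cont.tendsto x').comp ht
    have h2 : Tendsto (fun _ : ℕ => m.π z) atTop (𝓝 (m.π x')) :=
      h1.congr (fun n => hpn z hz n)
    exact tendsto_nhds_unique tendsto_const_nhds h2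
  have hlimi : ∀ z x', (m.π z = r ∨ m.π z = s) →
      Tendsto (fun n : ℕ => ((m.ρ γ)⁻¹ ^ n) z) atTop (𝓝 x') → m.π z = m.π x' := by
    intro z x' hz ht
    have h1 := (m.cont.tendsto x').comp ht
    have h2 : Tendsto (fun _ : ℕ => m.π z) atTop (𝓝 (m.π x')) :=
      h1.congr (fun n => hpi z hz n)
    exact tendsto_nhds_unique tendsto_const_nhds h2
  obtain ⟨zr, hzr⟩ := m.surj r
  obtain ⟨zs, hzs⟩ := m.surj s
  have hex : ∀ w, ∃ z, (m.π z = r ∨ m.π z = s) ∧ m.π z ≠ w := by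
    intro w
    by_cases hw : w = r
    · refine ⟨zs, Or.inr hzs, ?_⟩
      rw [hzs, hw]
      exact hax.1.symm
    · refine ⟨zr, Or.inl hzr, ?_⟩
      rw [hzr]
      exact Ne.symm hw
  have hy' : ∃ y, y ≠ x ∧ (m.ρ γ) y = y := by
    by_contra hcon
    have honly : ∀ z, (m.ρ γ) z = z → z = x := by
      intro z hz
      by_contra h
      exact hcon ⟨z, h, hz⟩
    obtain ⟨z, hz, hne⟩ := hex (m.π x)
    exact hne (hlim z x hz (hPRB (m.ρ γ) x (m.mob γ) hN1 hx honly z))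
  obtain ⟨y, hyx, hy⟩ := hy'
  have haxN : Axis (m.ρ γ) x y := by
    refine ⟨hyx.symm, fun z => ⟨fun hz => ?_, ?_⟩⟩
    · by_contra hcon
      push Not at hcon
      exact hN1 (blk_MB3 mb1 (m.ρ γ) (m.mob γ) x y z hyx.symm (Ne.symm hcon.2)
        (Ne.symm hcon.1) hx hy hz)
    · rintro (h | h)
      · rw [h]
        exact hx
      · rw [h]
        exact hy
  obtain ⟨a, b, hab, hA, hB⟩ : ∃ a b : Circle, ((a = x ∧ b = y) ∨ (a = y ∧ b = x)) ∧
      (∀ z, z ≠ b → Tendsto (fun n : ℕ => ((m.ρ γ) ^ n) z) atTop (𝓝 a)) ∧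
      ∀ z, z ≠ a → Tendsto (fun n : ℕ => ((m.ρ γ)⁻¹ ^ n) z) atTop (𝓝 b) := by
    rcases hDYN (m.ρ γ) x y (m.mob γ) haxN with ⟨h1, h2⟩ | ⟨h1, h2⟩
    · exact ⟨x, y, Or.inl ⟨rfl, rfl⟩, h1, h2⟩
    · exact ⟨y, x, Or.inr ⟨rfl, rfl⟩, h1, h2⟩
  have key : ∀ z, (m.π z = r ∨ m.π z = s) → z = a ∨ z = b := by
    intro z hz
    by_contra hcon
    push Not at hcon
    have h1 := hlim z a hz (hA z hcon.2)
    have h2 := hlimi z b hz (hB z hcon.1)
    obtain ⟨z', hz', hne⟩ := hex (m.π z)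
    have h3 : z' ≠ b := by
      intro h
      rw [h, ← h2] at hne
      exact hne rfl
    have h4 := hlim z' a hz' (hA z' h3)
    exact hne (by rw [h4, h1])
  have hne : zr ≠ zs := by
    intro h
    apply hax.1
    rw [← hzr, ← hzs, h]
  have hkr := key zr (Or.inl hzr)
  have hks := key zs (Or.inr hzs)
  have hset : ∀ z, (z = a ∨ z = b) ↔ (z = zr ∨ z = zs) := by
    intro z
    rcases hkr with h1 | h1 <;> rcases hks with h2 | h2
    · exact absurd (h1.trans h2.symm) hne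
    · rw [h1, h2]
    · rw [h1, h2]
      exact Or.comm
    · exact absurd (h1.trans h2.symm) hne
  have hset2 : ∀ z, (z = x ∨ z = y) ↔ (z = a ∨ z = b) := by
    intro z
    rcases hab with ⟨h1, h2⟩ | ⟨h1, h2⟩
    · rw [h1, h2]
    · rw [h1, h2]
      exact Or.comm
  refine ⟨zr, zs, ⟨hne, fun z => ?_⟩, fun z => ⟨fun hz => ?_, fun hz => ?_⟩,
    fun z => ⟨fun hz => ?_, fun hz => ?_⟩⟩
  · rw [haxN.2 z, hset2, hset]
  · rcases (hset z).1 (key z (Or.inl hz)) with h | h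
    · exact h
    · exfalso
      apply hax.1
      rw [← hz, h, hzs]
  · rw [hz, hzr]
  · rcases (hset z).1 (key z (Or.inr hz)) with h | h
    · exfalso
      apply hax.1
      rw [← hz, h, hzr]
    · exact h
  · rw [hz, hzs]

end Pool.BL
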