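import Pool.Agent.Work.MP_ae1ff6_bl.Interface

/-!
# Block IND: adding finitely many closed geodesics
-/

open Topology Filter Set
open scoped ComplexConjugate

set_option autoImplicit false

namespace Pool.BL

open Pool.CG

theorem p_IND (hCOS : Stmt_COS) (hADD : Stmt_ADD) : Stmt_IND := by
  intro Γ G m h1 h2 h3 hm γ₁ γ₂ p₁ q₁ p₂ q₂ hγ₁ hγ₂ ha₁ ha₂ hl B hB₁ hB₂ hi A hA hAΓ hAx
  have key : ∃ B' : Set H, B ⊆ B' ∧ A ⊆ B' ∧ InfMod Γ (Cen G B') := by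
    revert hAΓ hAx
    refine Set.Finite.induction_on A hA ?_ ?_
    · intro _ _
      exact ⟨B, Subset.rfl, empty_subset _, hi⟩
    · intro e A' _ _ ih hAΓ hAx
      obtain ⟨B', hB', hA', hi'⟩ := ih (fun g hg => hAΓ (mem_insert_of_mem _ hg))
        (fun g hg => hAx g (mem_insert_of_mem _ hg))
      obtain ⟨x, y, hxy⟩ := hAx e (mem_insert _ _)
      obtain ⟨B'', hB'', heB, hi''⟩ := hADD Γ G m h1 h2 h3 hm γ₁ γ₂ p₁ q₁ p₂ q₂ hγ₁ hγ₂ ha₁ ha₂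
        hl B' (hB' hB₁) (hB' hB₂) hi' e (hAΓ (mem_insert _ _)) x y hxy
      exact ⟨B'', hB'.trans hB'', insert_subset heB (hA'.trans hB''), hi''⟩
  obtain ⟨B', -, hAB', hi'⟩ := key
  exact hCOS.2.2.2 Γ _ _ hi' fun g hg => ⟨hg.1, fun γ hγ => hg.2 γ (hAB' hγ)⟩

end Pool.BL
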