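import Pool.Agent.Work.MP_ae1ff6_bl.Interface

/-! # Block LNK (helper1) -/

open Topology Filter Set
open scoped ComplexConjugate

set_option autoImplicit false

namespace Pool.BL

open Pool.CG

theorem p_LNK : Stmt_LNK := by
  intro π p q r s p' q' r' s' hπ hp hq hr hs h
  have er : π r' = r := (hr r').2 rfl
  have es : π s' = s := (hs s').2 rfl
  have ep : π p' = p := (hp p').2 rfl
  have eq : π q' = q := (hq q').2 rfl
  obtain ⟨⟨h1, h2⟩, ⟨h3, h4⟩, h5⟩ := h
  refine ⟨⟨?_, ?_⟩, ⟨?_, ?_⟩, ?_⟩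
  · intro e; exact h1 (by rw [← er, ← ep, e])
  · intro e; exact h2 (by rw [← er, ← eq, e])
  · intro e; exact h3 (by rw [← es, ← ep, e])
  · intro e; exact h4 (by rw [← es, ← eq, e])
  · intro t ht hrt hst
    have h6 : IsPreconnected (π '' t) := ht.image _ hπ.continuousOn
    rcases h5 (π '' t) h6 ⟨r', hrt, er⟩ ⟨s', hst, es⟩ with ⟨x, hx, hx'⟩ | ⟨x, hx, hx'⟩
    · left; rw [← (hp x).1 hx']; exact hx
    · right; rw [← (hq x).1 hx']; exact hx

end Pool.BL
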