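import Pool.Agent.Work.MP_ae1ff6_bl.Interface

open Topology Filter Set
open scoped ComplexConjugate

set_option autoImplicit false

namespace Pool.BL

open Pool.CG

theorem PIN_comm {A : Type} [Group A] (k h c : A) (h1 : k * c * k⁻¹ = (k * h) * c * (k * h)⁻¹) :
    h * c = c * h := by
  have h2 : k⁻¹ * (k * c * k⁻¹) * k = k⁻¹ * ((k * h) * c * (k * h)⁻¹) * k := by rw [h1]
  have h3 : k⁻¹ * (k * c * k⁻¹) * k = c := by group
  have h4 : k⁻¹ * ((k * h) * c * (k * h)⁻¹) * k = h * c * h⁻¹ := by group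
  rw [h3, h4] at h2
  have h5 : c * h = (h * c * h⁻¹) * h := by rw [← h2]
  rw [h5]
  group

theorem PIN_conj {A : Type} [Group A] (k c : A) (h1 : k * c = c * k) : k * c * k⁻¹ = c := by
  rw [h1]
  group

theorem p_PIN (hCOS : Stmt_COS) : Stmt_PIN := by
  intro Γ G B T S e hT hTG hS hφ
  obtain ⟨h1, h2, h3, h4⟩ := hCOS
  obtain ⟨x, hx, hx'⟩ := h1 Γ T S (fun g => g * e * g⁻¹) hT hφ hS
  obtain ⟨k, hk, _⟩ := hx' ∅ Set.finite_empty
  refine h4 Γ _ _ (h3 Γ _ k hx') ?_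
  rintro h ⟨hkh, hkh'⟩
  have a1 := hTG hk.1
  have a2 := hTG hkh
  refine ⟨?_, ?_⟩
  · have h5 : h = k⁻¹ * (k * h) := by group
    rw [h5]
    exact G.mul_mem (G.inv_mem a1.1) a2.1
  · rintro γ (rfl | hγ)
    · refine PIN_comm k h γ ?_
      exact hk.2.trans hkh'.symm
    · refine PIN_comm k h γ ?_
      rw [PIN_conj k γ (a1.2 γ hγ), PIN_conj (k * h) γ (a2.2 γ hγ)]

end Pool.BL
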