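import Pool.Agent.Work.MP_ae1ff6_bl.Interface

open Topology Filter Set
open scoped ComplexConjugate

set_option autoImplicit false

namespace Pool.BL

open Pool.CG

theorem PRB_pow (N : H) (x : Circle) (r : ℝ) (b : ℂ)
    (h : ∀ z : Circle, z ≠ x → N z ≠ x ∧ ((N z : ℂ) - x)⁻¹ = ((z : ℂ) - x)⁻¹ + r * b) (z : Circle)
    (hz : z ≠ x) (n : ℕ) : (N ^ n) z ≠ x ∧
      (((N ^ n) z : ℂ) - x)⁻¹ = ((z : ℂ) - x)⁻¹ + n * (r * b) := by
  induction n with
  | zero =>
    refine ⟨hz, ?_⟩
    have e : (N ^ 0) z = z := rfl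
    rw [e]
    simp
  | succ n ih =>
    obtain ⟨h1, h2⟩ := ih
    have e : (N ^ (n + 1)) z = N ((N ^ n) z) := by
      rw [pow_succ']
      rfl
    obtain ⟨h3, h4⟩ := h _ h1
    rw [e]
    refine ⟨h3, ?_⟩
    rw [h4, h2]
    push_cast
    ring

theorem PRB_fix (N : H) (x : Circle) (hx : N x = x) (n : ℕ) : (N ^ n) x = x := by
  induction n with
  | zero => rfl
  | succ n ih =>
    have e : (N ^ (n + 1)) x = N ((N ^ n) x) := by
      rw [pow_succ']
      rfl
    rw [e, ih, hx]

theorem p_PRB : Stmt_PRB := by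
  intro N x hm hN hx huniq z
  obtain ⟨α, β, hp⟩ := (mb1.1 N).1 hm
  obtain ⟨hD, -⟩ := mb1.2 N α β hp
  by_cases hzx : z = x
  · subst hzx
    have e : (fun n : ℕ => (N ^ n) z) = fun _ => z := by
      funext n
      exact PRB_fix N z hx n
    rw [e]
    exact tendsto_const_nhds
  have hreal := RL2_real N α β hp x hx
  have h1 := hp.2 x
  rw [hx] at h1
  have h3 : α * conj α - β * conj β = 1 := by
    rw [Complex.mul_conj, Complex.mul_conj, Complex.normSq_eq_norm_sq, Complex.normSq_eq_norm_sq]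
    have := hp.1
    rw [← Complex.ofReal_sub, this, Complex.ofReal_one]
  obtain ⟨r, hr⟩ : ∃ r : ℝ, (r : ℂ) = conj β * (x : ℂ) + conj α :=
    Complex.conj_eq_iff_real.1 hreal |>.imp fun r hr => hr.symm
  have hre : α + conj α = 2 * (α.re : ℂ) := by
    rw [Complex.add_conj]
    push_cast
    ring
  have hquad : (r : ℂ) ^ 2 - 2 * (α.re : ℂ) * r + 1 = 0 := by
    have e1 : (α - r) * (r - conj α) = - (β * conj β) := by
      have e2 : (α - r) * (x : ℂ) = - β := by
        rw [hr]
        linear_combination (-1 : ℂ) * h1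
      have e3 : (r : ℂ) - conj α = conj β * (x : ℂ) := by
        rw [hr]
        ring
      rw [e3]
      linear_combination conj β * e2
    rw [← hre]
    linear_combination (-1 : ℂ) * e1 + (-1 : ℂ) * h3
  have hquad' : r ^ 2 - 2 * α.re * r + 1 = 0 := by
    exact_mod_cast hquad
  have ha : |α.re| ≤ 1 := by
    by_contra hcon
    push Not at hcon
    obtain ⟨p, q, hax, -⟩ := HFP_axis mb1 hp hcon
    have e1 := huniq p ((hax.2 p).2 (Or.inl rfl))
    have e2 := huniq q ((hax.2 q).2 (Or.inr rfl))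
    exact hax.1 (e1.trans e2.symm)
  have ha2 : α.re ^ 2 ≤ 1 := by
    rw [← sq_abs]
    have := abs_nonneg α.re
    nlinarith
  have hra : r = α.re := by
    have e1 : (r - α.re) ^ 2 ≤ 0 := by nlinarith
    have e2 : r - α.re = 0 := by
      have := sq_nonneg (r - α.re)
      exact pow_eq_zero_iff (two_ne_zero) |>.1 (le_antisymm e1 this)
    linarith
  have hr2 : r ^ 2 = 1 := by
    rw [← hra] at hquad'
    nlinarith
  have hr2' : (r : ℂ) ^ 2 = 1 := by exact_mod_cast hr2
  have hβ : β ≠ 0 := by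
    intro hβ
    apply hN
    rw [hβ] at hr hp
    simp only [map_zero, zero_mul, zero_add] at hr
    have e0 : α = r := by
      have := congrArg conj hr
      rw [Complex.conj_ofReal, Complex.conj_conj] at this
      exact this.symm
    apply Homeomorph.ext
    intro w
    apply Circle.ext
    have e1 := hp.2 w
    rw [← hr, e0] at e1
    simp only [map_zero, zero_mul, zero_add, add_zero] at e1
    have hr0 : (r : ℂ) ≠ 0 := by
      intro h
      rw [h] at hr2'
      norm_num at hr2'
    have e2 : (N w : ℂ) * r = (w : ℂ) * r := by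
      rw [e1]
      ring
    exact mul_right_cancel₀ hr0 e2
  have hstep : ∀ w : Circle, w ≠ x → N w ≠ x ∧
      ((N w : ℂ) - x)⁻¹ = ((w : ℂ) - x)⁻¹ + r * conj β := by
    intro w hw
    have f1 : (w : ℂ) - x ≠ 0 := by
      rw [sub_ne_zero]
      intro h
      exact hw (Circle.ext h)
    have f2 : N w ≠ x := by
      intro h
      apply hw
      apply N.injective
      rw [h, hx]
    have f3 : (N w : ℂ) - x ≠ 0 := by
      rw [sub_ne_zero]
      intro h
      exact f2 (Circle.ext h)
    refine ⟨f2, ?_⟩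
    have f4 := hp.2 w
    have f5 : ((N w : ℂ) - x) * (conj β * (w : ℂ) + conj α) = r * ((w : ℂ) - x) := by
      have g1 : α = 2 * (r : ℂ) - conj α := by
        rw [hra]
        linear_combination hre
      have g2 : conj α = r - conj β * (x : ℂ) := by
        rw [hr]
        ring
      have g3 : β = (x : ℂ) * r - α * x := by
        rw [hr]
        linear_combination (-1 : ℂ) * h1
      have g4 : α = r + conj β * x := by
        rw [g1, g2]
        ring
      linear_combination f4 + g3 + ((w : ℂ) - x) * g4 + (-(x : ℂ)) * g2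
    have f6 : ((N w : ℂ) - x) * ((r + conj β * ((w : ℂ) - x)) * r) = (w : ℂ) - x := by
      have g2 : conj α = r - conj β * (x : ℂ) := by
        rw [hr]
        ring
      rw [g2] at f5
      linear_combination r * f5 + ((w : ℂ) - x) * hr2'
    field_simp
    linear_combination (-1 : ℂ) * f6 + ((N w : ℂ) - x) * hr2'
  rw [tendsto_iff_dist_tendsto_zero]
  have hd : ∀ n : ℕ, dist ((N ^ n) z) x = ‖((z : ℂ) - x)⁻¹ + n * (r * conj β)‖⁻¹ := by
    intro n
    obtain ⟨h5, h6⟩ := PRB_pow N x r (conj β) hstep z hzx n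
    rw [← h6, norm_inv, inv_inv, HFP_dist]
  simp only [hd]
  have hat : Tendsto (fun n : ℕ => ‖((z : ℂ) - x)⁻¹ + n * (r * conj β)‖) atTop atTop := by
    have hb : 0 < ‖β‖ := norm_pos_iff.2 hβ
    have hlow : ∀ n : ℕ, (n : ℝ) * ‖β‖ - ‖((z : ℂ) - x)⁻¹‖ ≤
        ‖((z : ℂ) - x)⁻¹ + n * (r * conj β)‖ := by
      intro n
      have g1 : ‖(n : ℂ) * (r * conj β)‖ = n * ‖β‖ := by
        rw [norm_mul, norm_mul, RCLike.norm_conj, Complex.norm_natCast, Complex.norm_real,
          Real.norm_eq_abs]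
        have : |r| = 1 := by
          rw [← sq_eq_sq₀ (abs_nonneg r) zero_le_one, sq_abs, hr2, one_pow]
        rw [this, one_mul]
      rw [← g1]
      have g2 := norm_sub_le (((z : ℂ) - x)⁻¹ + n * (r * conj β)) (((z : ℂ) - x)⁻¹)
      have g3 : ((z : ℂ) - x)⁻¹ + n * (r * conj β) - ((z : ℂ) - x)⁻¹ = n * (r * conj β) := by ring
      rw [g3] at g2
      linarith
    refine tendsto_atTop_mono hlow ?_
    have h7 : Tendsto (fun n : ℕ => (n : ℝ) * ‖β‖) atTop atTop :=
      tendsto_natCast_atTop_atTop.atTop_mul_const hb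
    exact tendsto_atTop_add_const_right _ _ h7
  exact hat.inv_tendsto_atTop

end Pool.BL
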