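import Pool.Agent.Work.MP_ae1ff6_bl.Interface

/-!
# Block STB (helper46)
-/

open Topology Filter Set
open scoped ComplexConjugate

set_option autoImplicit false

namespace Pool.BL

open Pool.CG

theorem STB_axis (g γ : H) (p q : Circle) (h : Axis γ p q) :
    Axis (g * γ * g⁻¹) (g p) (g q) := by
  refine ⟨fun e => h.1 (g.injective e), fun z => ?_⟩
  have e1 : (g * γ * g⁻¹) z = g (γ (g⁻¹ z)) := rfl
  have e2 : g (g⁻¹ z) = z := g.apply_symm_apply z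
  have e3 : ∀ w, g⁻¹ z = w ↔ z = g w := by
    intro w
    constructor
    · rintro rfl
      exact e2.symm
    · rintro rfl
      exact g.symm_apply_apply w
  rw [e1, ← e3 p, ← e3 q, ← h.2 (g⁻¹ z)]
  constructor
  · intro h1
    exact ((e3 _).2 h1.symm).symm
  · intro h1
    rw [h1, e2]

theorem p_STB (hFNL : Stmt_FNL) (hCOS : Stmt_COS) (hPIN : Stmt_PIN) : Stmt_STB := by
  intro Γ G m hFK hΓG hn hB hD
  unfold Displaces at hD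
  push Not at hD
  obtain ⟨γ, hγ, δ, hδ, p, q, r, s, hax, hax', hbad⟩ := hD
  obtain ⟨M, hM⟩ := hB ⟨γ, hγ⟩ ⟨p, q, hax⟩
  obtain ⟨F, hF, hF'⟩ := hFNL Γ hFK m ⟨δ, hδ⟩ r s hax' M
  set S : Set H := (fun x : Γ => (x : H)) '' F with hS
  have hSf : S.Finite := hF.image _
  set T : Set H := {g | g ∈ G ∧ Meets g p q r s} with hT
  set T' : Set H := {g | g ∈ G ∧ g * γ * g⁻¹ ∈ S} with hT'
  have hTinf : InfMod Γ T := by
    intro K hK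
    obtain ⟨g, hg, hm, hK'⟩ := hbad K hK
    exact ⟨g, ⟨hg, hm⟩, hK'⟩
  have hmap : ∀ g ∈ T, ∃ κ ∈ Γ, κ * g ∈ T' := by
    rintro g ⟨hg, hm⟩
    have hγ' : g * γ * g⁻¹ ∈ Γ := hn g hg γ hγ
    obtain ⟨k, hk⟩ := hF' ⟨g * γ * g⁻¹, hγ'⟩ (g p) (g q) (STB_axis g γ p q hax) hm
      (hM g hg ⟨g * γ * g⁻¹, hγ'⟩ rfl)
    refine ⟨(((⟨δ, hδ⟩ : Γ) ^ k : Γ) : H), ((⟨δ, hδ⟩ : Γ) ^ k).2, ?_, ?_⟩
    · exact G.mul_mem (hΓG ((⟨δ, hδ⟩ : Γ) ^ k).2) hg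
    · refine ⟨_, hk, ?_⟩
      show ((((⟨δ, hδ⟩ : Γ) ^ k) * ⟨g * γ * g⁻¹, hγ'⟩ * ((⟨δ, hδ⟩ : Γ) ^ k)⁻¹ : Γ) : H) = _
      rw [Subgroup.coe_mul, Subgroup.coe_mul, Subgroup.coe_inv]
      show _ * (g * γ * g⁻¹) * _ = _
      group
  have hT'inf : InfMod Γ T' := hCOS.2.1 Γ G T T' hn (fun g hg => hg.1) hTinf hmap
  have hC := hPIN Γ G ∅ T' S γ hT'inf (fun g hg => ⟨hg.1, fun x hx => absurd hx (by simp)⟩) hSf
    (fun g hg => hg.2)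
  rw [insert_empty_eq] at hC
  exact ⟨γ, hγ, p, q, hax, hC⟩

end Pool.BL
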