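import Pool.Agent.Work.MP_ae1ff6_bl.Interface

/-! # Block SYM (helper1): the symmetries of the relation Link -/

open Topology Filter Set
open scoped ComplexConjugate

set_option autoImplicit false

namespace Pool.BL

open Pool.CG

theorem SYM_swapL {a b c d : Circle} (h : Link a b c d) : Link b a c d :=
  ⟨⟨h.1.2, h.1.1⟩, ⟨h.2.1.2, h.2.1.1⟩, fun t ht hc hd => (h.2.2 t ht hc hd).symm⟩

theorem SYM_swapR {a b c d : Circle} (h : Link a b c d) : Link a b d c :=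
  ⟨h.2.1, h.1, fun t ht hd hc => h.2.2 t ht hc hd⟩

/-- two linked points are in different arcs -/
theorem SYM_arcs {s t : ℝ} (hst : s < t) (hts : t < s + 2 * Real.pi) {c d : Circle}
    (h : Link (Circle.exp s) (Circle.exp t) c d) :
    ∃ σ ∈ Ioo s t, ∃ τ ∈ Ioo t (s + 2 * Real.pi),
      (Circle.exp σ = c ∧ Circle.exp τ = d) ∨ (Circle.exp σ = d ∧ Circle.exp τ = c) := by
  have hinj : InjOn Circle.exp (Ico s (s + 2 * Real.pi)) := Circle.exp_injOn_Ico (by linarith)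
  have hs : s ∈ Ico s (s + 2 * Real.pi) := ⟨le_rfl, by linarith⟩
  have ht : t ∈ Ico s (s + 2 * Real.pi) := ⟨hst.le, hts⟩
  have key : ∀ z : Circle, z ≠ Circle.exp s → z ≠ Circle.exp t →
      (∃ θ ∈ Ioo s t, Circle.exp θ = z) ∨ ∃ θ ∈ Ioo t (s + 2 * Real.pi), Circle.exp θ = z := by
    intro z h1 h2
    obtain ⟨θ, hθ, rfl⟩ := ARC_surj s z
    rcases lt_trichotomy θ t with h | h | h
    · rcases hθ.1.lt_or_eq with h3 | h3
      · exact Or.inl ⟨θ, ⟨h3, h⟩, rfl⟩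
      · exact absurd (by rw [h3]) h1
    · exact absurd (by rw [h]) h2
    · exact Or.inr ⟨θ, ⟨h, hθ.2⟩, rfl⟩
  have hpre1 : IsPreconnected (Circle.exp '' Ioo s t) :=
    isPreconnected_Ioo.image _ Circle.exp.continuous.continuousOn
  have hpre2 : IsPreconnected (Circle.exp '' Ioo t (s + 2 * Real.pi)) :=
    isPreconnected_Ioo.image _ Circle.exp.continuous.continuousOn
  rcases key c h.1.1 h.1.2 with ⟨σ, hσ, e1⟩ | ⟨σ, hσ, e1⟩ <;>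
    rcases key d h.2.1.1 h.2.1.2 with ⟨τ, hτ, e2⟩ | ⟨τ, hτ, e2⟩
  · exfalso
    rcases h.2.2 _ hpre1 ⟨σ, hσ, e1⟩ ⟨τ, hτ, e2⟩ with ⟨u, hu, e⟩ | ⟨u, hu, e⟩
    · exact (ne_of_gt hu.1) (hinj ⟨hu.1.le, by linarith [hu.2]⟩ hs e)
    · exact (ne_of_lt hu.2) (hinj ⟨hu.1.le, by linarith [hu.2]⟩ ht e)
  · exact ⟨σ, hσ, τ, hτ, Or.inl ⟨e1, e2⟩⟩
  · exact ⟨τ, hτ, σ, hσ, Or.inr ⟨e2, e1⟩⟩
  · exfalso
    rcases h.2.2 _ hpre2 ⟨σ, hσ, e1⟩ ⟨τ, hτ, e2⟩ with ⟨u, hu, e⟩ | ⟨u, hu, e⟩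
    · exact (ne_of_gt (hst.trans hu.1)) (hinj ⟨by linarith [hu.1], hu.2⟩ hs e)
    · exact (ne_of_gt hu.1) (hinj ⟨by linarith [hu.1], hu.2⟩ ht e)

theorem SYM_main {a b c d : Circle} (hab : a ≠ b) (h : Link a b c d) : Link c d a b := by
  obtain ⟨s, t, hst, hts, rfl, rfl⟩ := LOP_param a b hab
  obtain ⟨σ, hσ, τ, hτ, hh⟩ := SYM_arcs hst hts h
  have h1 : Link (Circle.exp σ) (Circle.exp τ) (Circle.exp t) (Circle.exp s) := by
    refine (blk_ARC σ τ (by linarith [hσ.2, hτ.1]) (by linarith [hσ.1, hτ.2])).2 _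
      ⟨t, ⟨hσ.2, hτ.1⟩, rfl⟩ _ ⟨s + 2 * Real.pi, ⟨hτ.2, by linarith [hσ.1]⟩, ?_⟩
    rw [Circle.exp_eq_exp]
    exact ⟨1, by push_cast; ring⟩
  rcases hh with ⟨rfl, rfl⟩ | ⟨rfl, rfl⟩
  · exact SYM_swapR h1
  · exact SYM_swapL (SYM_swapR h1)

theorem p_SYM : Stmt_SYM := by
  intro a b c d hab h
  exact ⟨SYM_main hab h, SYM_swapL h, SYM_swapR h⟩

end Pool.BL
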