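import Pool.Agent.Work.MP_ae1ff6_bl.Interface

/-! # Block TCJ (helper1): the trace is invariant under conjugation -/

open Topology Filter Set
open scoped ComplexConjugate

set_option autoImplicit false

namespace Pool.BL

open Pool.CG

theorem TCJ_iff (g : H) (M : ℝ) : TrLe g M ↔ ∃ α β : ℂ, Par g α β ∧ |α.re| ≤ M := by
  constructor
  · rintro ⟨α, β, h1, h2, h3⟩
    refine ⟨α, β, ⟨h1, fun z => ?_⟩, h3⟩
    rw [h2 z, div_mul_cancel₀ _ (MB1_ne α β h1 z)]
  · rintro ⟨α, β, ⟨h1, h2⟩, h3⟩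
    refine ⟨α, β, h1, fun z => ?_, h3⟩
    rw [eq_div_iff (MB1_ne α β h1 z)]
    exact h2 z

theorem TCJ_re (a b α β : ℂ) (h : ‖a‖ ^ 2 - ‖b‖ ^ 2 = 1) :
    ((a * α + b * conj β) * conj a + (a * β + b * conj α) * conj (-b)).re = α.re := by
  rw [← Complex.normSq_eq_norm_sq, ← Complex.normSq_eq_norm_sq, Complex.normSq_apply,
    Complex.normSq_apply] at h
  simp only [Complex.add_re, Complex.mul_re, Complex.mul_im, Complex.add_im, Complex.conj_re,
    Complex.conj_im, Complex.neg_re, Complex.neg_im, map_neg]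
  linear_combination α.re * h

theorem p_TCJ : Stmt_TCJ := by
  intro n g M hn hg
  obtain ⟨a, b, hab⟩ := (mb1.1 n).1 hn
  obtain ⟨α, β, hg', hM⟩ := (TCJ_iff g M).1 hg
  have hmb2 := blk_MB2 mb1
  have h1 := hmb2.1 n g a b α β hab hg'
  have h2 := hmb2.2.1 n a b hab
  have h3 := hmb2.1 (n * g) n⁻¹ _ _ _ _ h1 h2
  refine (TCJ_iff _ M).2 ⟨_, _, h3, ?_⟩
  rw [TCJ_re a b α β hab.1]
  exact hM

end Pool.BL
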