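import Pool.Agent.Work.MP_ae1ff6_bl.Assembly
import Pool.Agent.Work.MP_ae1ff6_bl.B_DYN
import Pool.Agent.Work.MP_ae1ff6_bl.B_PRB
import Pool.Agent.Work.MP_ae1ff6_bl.B_HYR
import Pool.Agent.Work.MP_ae1ff6_bl.B_LNK
import Pool.Agent.Work.MP_ae1ff6_bl.B_TCJ
import Pool.Agent.Work.MP_ae1ff6_bl.B_BDB
import Pool.Agent.Work.MP_ae1ff6_bl.B_DSR
import Pool.Agent.Work.MP_ae1ff6_bl.B_FNL
import Pool.Agent.Work.MP_ae1ff6_bl.B_FN2
import Pool.Agent.Work.MP_ae1ff6_bl.B_COS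
import Pool.Agent.Work.MP_ae1ff6_bl.B_PIN
import Pool.Agent.Work.MP_ae1ff6_bl.B_STB
import Pool.Agent.Work.MP_ae1ff6_bl.B_SYM
import Pool.Agent.Work.MP_ae1ff6_bl.B_CRS
import Pool.Agent.Work.MP_ae1ff6_bl.B_FXP
import Pool.Agent.Work.MP_ae1ff6_bl.B_EXT
import Pool.Agent.Work.MP_ae1ff6_bl.B_CY4
import Pool.Agent.Work.MP_ae1ff6_bl.B_EX1
import Pool.Agent.Work.MP_ae1ff6_bl.B_ADD
import Pool.Agent.Work.MP_ae1ff6_bl.B_IND
import Pool.Agent.Work.MP_ae1ff6_bl.B_ONE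
import Pool.Agent.Work.MP_ae1ff6_bl.B_CYB

/-!
# Discrete groups of mapping classes with bounded lengths: the theorem
-/

set_option autoImplicit false

namespace Pool.BL

open Pool.CG

theorem hyr : Stmt_HYR := p_HYR p_DYN p_PRB
theorem fnl : Stmt_FNL := p_FNL hyr p_LNK p_TCJ p_BDB p_DSR
theorem fn2 : Stmt_FN2 := p_FN2 hyr p_BDB p_DSR
theorem pin : Stmt_PIN := p_PIN p_COS
theorem stb : StmtL_STB := l_STB fnl p_COS pin
theorem crs : StmtL_CRS := l_CRS fnl p_COS pin p_SYM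
theorem fxp : Stmt_FXP := p_FXP p_DYN
theorem ext : StmtL_EXT := l_EXT fn2 pin
theorem ex1 : StmtL_EX1 := l_EX1 fxp ext p_CY4
theorem add : StmtL_ADD := l_ADD fxp ext ex1
theorem ind : StmtL_IND := l_IND p_COS add
theorem one : Stmt_ONE := p_ONE p_TCJ
theorem bl : Stmt_BLL := bll_of one stb crs ind
theorem bl1 : Stmt_BL1 := bl1_of bl p_TCJ p_CYB

end Pool.BL
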