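import Pool.Agent.Work.MP_ae1ff6_bl.Defs

/-!
# Bounded lengths with one metric for each closed geodesic; one mapping class
-/

set_option autoImplicit false

namespace Pool.BL

open Pool.CG

/-- For each closed geodesic `γ` there is a complete hyperbolic metric `m` (which may depend on `γ`)
such that the lengths, in the metric `m`, of the images of `γ` under the mapping classes in `G / Γ`
are bounded. -/
def BoundedL (Γ G : Subgroup H) : Prop :=
  ∀ γ : Γ, (∃ p q, Axis (γ : H) p q) → ∃ (m : HypMetric Γ) (M : ℝ), ∀ g ∈ G, ∀ γ' : Γ,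
    (γ' : H) = g * γ * g⁻¹ → TrLe (m.ρ γ') M

/-- The mapping class `f Γ` has bounded lengths: for some complete hyperbolic metric and for each
closed geodesic `a` of the surface the lengths of the closed geodesics `f ^ n (a)`, `n : ℤ`, are
bounded. -/
def Bounded1 (Γ : Subgroup H) (f : H) : Prop :=
  ∃ m : HypMetric Γ, ∀ γ : Γ, (∃ p q, Axis (γ : H) p q) → ∃ M : ℝ, ∀ n : ℤ, ∀ γ' : Γ,
    (γ' : H) = f ^ n * γ * (f ^ n)⁻¹ → TrLe (m.ρ γ') M

/-- For each closed geodesic `a` of the surface there is a complete hyperbolic metric (which may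
depend on `a`) for which the lengths of the closed geodesics `f ^ n (a)`, `n : ℤ`, are bounded. -/
def BoundedL1 (Γ : Subgroup H) (f : H) : Prop :=
  ∀ γ : Γ, (∃ p q, Axis (γ : H) p q) → ∃ (m : HypMetric Γ) (M : ℝ), ∀ n : ℤ, ∀ γ' : Γ,
    (γ' : H) = f ^ n * γ * (f ^ n)⁻¹ → TrLe (m.ρ γ') M

end Pool.BL
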