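import Pool.Agent.Work.MP_ae1ff6_bl.Interface
import Pool.Agent.Work.MP_ae1ff6_bl.Defs2
import Pool.Agent.Work.MP_ae1ff6_bl.B_STB
import Pool.Agent.Work.MP_ae1ff6_bl.B_CRS
import Pool.Agent.Work.MP_ae1ff6_bl.B_EXT
import Pool.Agent.Work.MP_ae1ff6_bl.B_EX1
import Pool.Agent.Work.MP_ae1ff6_bl.B_ADD

/-!
# Bounded lengths with one metric for each closed geodesic

The blocks STB, CRS, EXT, EX1, ADD, IND for the weaker hypothesis that each closed geodesic has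
bounded lengths for some complete hyperbolic metric, which may depend on the closed geodesic. The
proofs are those of the blocks (helper46, helper86, helper87, helper38, helper41, helper87).
-/

open Topology Filter Set
open scoped ComplexConjugate

set_option autoImplicit false

namespace Pool.BL

open Pool.CG

theorem boundedL_of (Γ G : Subgroup H) (h : Bounded Γ G) : BoundedL Γ G := by
  obtain ⟨m, hm⟩ := h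
  intro γ hγ
  obtain ⟨M, hM⟩ := hm γ hγ
  exact ⟨m, M, hM⟩

/-- the statement of block STB, for `BoundedL` -/
def StmtL_STB : Prop :=
  ∀ (Γ G : Subgroup H), FirstKind Γ → Γ ≤ G →
    (∀ g ∈ G, ∀ γ ∈ Γ, g * γ * g⁻¹ ∈ Γ) → BoundedL Γ G → ¬ Displaces Γ G →
    ∃ γ ∈ Γ, ∃ p q : Circle, Axis γ p q ∧ InfMod Γ (Cen G {γ})

/-- the statement of block CRS, for `BoundedL` -/
def StmtL_CRS : Prop :=
  ∀ (Γ G : Subgroup H), FirstKind Γ → Γ ≤ G →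
    (∀ g ∈ G, ∀ γ ∈ Γ, g * γ * g⁻¹ ∈ Γ) → BoundedL Γ G → ∀ (γ₁ : H) (p₁ q₁ : Circle), γ₁ ∈ Γ →
    Axis γ₁ p₁ q₁ → InfMod Γ (Cen G {γ₁}) →
    ∃ γ₂ ∈ Γ, ∃ p₂ q₂ : Circle, Axis γ₂ p₂ q₂ ∧ Link p₁ q₁ p₂ q₂ ∧ InfMod Γ (Cen G {γ₂, γ₁})

/-- the statement of block EXT, for `BoundedL` -/
def StmtL_EXT : Prop :=
  ∀ (Γ G : Subgroup H), FirstKind Γ → Γ ≤ G →
    (∀ g ∈ G, ∀ γ ∈ Γ, g * γ * g⁻¹ ∈ Γ) → BoundedL Γ G → ∀ (B : Set H) (s t u v : ℝ), s < t →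
    t < u → u < v → v < s + 2 * Real.pi → InfMod Γ (Cen G B) →
    (∀ g ∈ Cen G B, g (Circle.exp s) = Circle.exp s ∧ g (Circle.exp t) = Circle.exp t ∧
      g (Circle.exp u) = Circle.exp u ∧ g (Circle.exp v) = Circle.exp v) →
    ∀ e ∈ Γ, ∀ x ∈ Circle.exp '' Ioo s t, ∀ y ∈ Circle.exp '' Ioo u v, Axis e x y →
      InfMod Γ (Cen G (insert e B))

/-- the statement of block EX1, for `BoundedL` -/
def StmtL_EX1 : Prop :=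
  ∀ (Γ G : Subgroup H), FirstKind Γ → Γ ≤ G →
    (∀ g ∈ G, ∀ γ ∈ Γ, g * γ * g⁻¹ ∈ Γ) → BoundedL Γ G → ∀ (γ₁ γ₂ : H) (p₁ q₁ p₂ q₂ : Circle),
    γ₁ ∈ Γ → γ₂ ∈ Γ → Axis γ₁ p₁ q₁ → Axis γ₂ p₂ q₂ → Link p₁ q₁ p₂ q₂ → ∀ B : Set H,
    γ₁ ∈ B → γ₂ ∈ B → InfMod Γ (Cen G B) → ∀ U : Set Circle, IsOpen U → U.Nonempty →
    ∃ e ∈ Γ, ∃ x ∈ U, ∃ y : Circle, Axis e x y ∧ InfMod Γ (Cen G (insert e B))

/-- the statement of block ADD, for `BoundedL` -/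
def StmtL_ADD : Prop :=
  ∀ (Γ G : Subgroup H), FirstKind Γ → Γ ≤ G →
    (∀ g ∈ G, ∀ γ ∈ Γ, g * γ * g⁻¹ ∈ Γ) → BoundedL Γ G → ∀ (γ₁ γ₂ : H) (p₁ q₁ p₂ q₂ : Circle),
    γ₁ ∈ Γ → γ₂ ∈ Γ → Axis γ₁ p₁ q₁ → Axis γ₂ p₂ q₂ → Link p₁ q₁ p₂ q₂ → ∀ B : Set H,
    γ₁ ∈ B → γ₂ ∈ B → InfMod Γ (Cen G B) → ∀ e ∈ Γ, ∀ x y : Circle, Axis e x y →
    ∃ B' : Set H, B ⊆ B' ∧ e ∈ B' ∧ InfMod Γ (Cen G B')

/-- the statement of block IND, for `BoundedL` -/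
def StmtL_IND : Prop :=
  ∀ (Γ G : Subgroup H), FirstKind Γ → Γ ≤ G →
    (∀ g ∈ G, ∀ γ ∈ Γ, g * γ * g⁻¹ ∈ Γ) → BoundedL Γ G → ∀ (γ₁ γ₂ : H) (p₁ q₁ p₂ q₂ : Circle),
    γ₁ ∈ Γ → γ₂ ∈ Γ → Axis γ₁ p₁ q₁ → Axis γ₂ p₂ q₂ → Link p₁ q₁ p₂ q₂ → ∀ B : Set H,
    γ₁ ∈ B → γ₂ ∈ B → InfMod Γ (Cen G B) → ∀ A : Set H, A.Finite → A ⊆ Γ →
    (∀ γ ∈ A, ∃ p q, Axis γ p q) → InfMod Γ (Cen G A)

theorem l_STB (hFNL : Stmt_FNL) (hCOS : Stmt_COS) (hPIN : Stmt_PIN) : StmtL_STB := by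
  intro Γ G hFK hΓG hn hB hD
  unfold Displaces at hD
  push Not at hD
  obtain ⟨γ, hγ, δ, hδ, p, q, r, s, hax, hax', hbad⟩ := hD
  obtain ⟨m, M, hM⟩ := hB ⟨γ, hγ⟩ ⟨p, q, hax⟩
  obtain ⟨F, hF, hF'⟩ := hFNL Γ hFK m ⟨δ, hδ⟩ r s hax' M
  set S : Set H := (fun x : Γ => (x : H)) '' F with hS
  have hSf : S.Finite := hF.image _
  set T : Set H := {g | g ∈ G ∧ Meets g p q r s} with hT
  set T' : Set H := {g | g ∈ G ∧ g * γ * g⁻¹ ∈ S} with hT'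
  have hTinf : InfMod Γ T := by
    intro K hK
    obtain ⟨g, hg, hm, hK'⟩ := hbad K hK
    exact ⟨g, ⟨hg, hm⟩, hK'⟩
  have hmap : ∀ g ∈ T, ∃ κ ∈ Γ, κ * g ∈ T' := by
    rintro g ⟨hg, hm⟩
    have hγ' : g * γ * g⁻¹ ∈ Γ := hn g hg γ hγ
    obtain ⟨k, hk⟩ := hF' ⟨g * γ * g⁻¹, hγ'⟩ (g p) (g q) (STB_axis g γ p q hax) hm
      (hM g hg ⟨g * γ * g⁻¹, hγ'⟩ rfl)
    refine ⟨(((⟨δ, hδ⟩ : Γ) ^ k : Γ) : H), ((⟨δ, hδ⟩ : Γ) ^ k).2, ?_, ?_⟩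
    · exact G.mul_mem (hΓG ((⟨δ, hδ⟩ : Γ) ^ k).2) hg
    · refine ⟨_, hk, ?_⟩
      show ((((⟨δ, hδ⟩ : Γ) ^ k) * ⟨g * γ * g⁻¹, hγ'⟩ * ((⟨δ, hδ⟩ : Γ) ^ k)⁻¹ : Γ) : H) = _
      rw [Subgroup.coe_mul, Subgroup.coe_mul, Subgroup.coe_inv]
      show _ * (g * γ * g⁻¹) * _ = _
      group
  have hT'inf : InfMod Γ T' := hCOS.2.1 Γ G T T' hn (fun g hg => hg.1) hTinf hmap
  have hC := hPIN Γ G ∅ T' S γ hT'inf (fun g hg => ⟨hg.1, fun x hx => absurd hx (by simp)⟩) hSf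
    (fun g hg => hg.2)
  rw [insert_empty_eq] at hC
  exact ⟨γ, hγ, p, q, hax, hC⟩

theorem l_CRS (hF : Stmt_FNL) (hC : Stmt_COS) (hP : Stmt_PIN) (hS : Stmt_SYM) : StmtL_CRS := by
  intro Γ G h1 h2 h3 hb γ₁ p₁ q₁ hγ₁ ha₁ hi
  obtain ⟨A, B, U, V, hA, hB, hU, hU', hV, hV', hL⟩ := blk_LOP blk_ARC p₁ q₁ ha₁.1
  obtain ⟨γ₂, hγ₂, p₂, hp₂, q₂, hq₂, ha₂⟩ := dns Γ h1 U V hU hU' hV hV'
  have hlink : Link p₁ q₁ p₂ q₂ :=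
    hL p₁ (mem_of_mem_nhds hA) q₁ (mem_of_mem_nhds hB) p₂ hp₂ q₂ hq₂
  obtain ⟨m, M, hM⟩ := hb ⟨γ₂, hγ₂⟩ ⟨p₂, q₂, ha₂⟩
  obtain ⟨F, hF1, hF2⟩ := hF Γ h1 m ⟨γ₁, hγ₁⟩ p₁ q₁ ha₁ M
  have key : ∀ g ∈ Cen G {γ₁}, ∃ κ ∈ Γ, κ * g ∈
      {g : H | g ∈ Cen G {γ₁} ∧ g * γ₂ * g⁻¹ ∈ (Subtype.val '' F : Set H)} := by
    intro g hg
    have hc : g * γ₁ = γ₁ * g := hg.2 γ₁ rfl
    have hmem : g * γ₂ * g⁻¹ ∈ Γ := h3 g hg.1 γ₂ hγ₂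
    have hax : Axis (g * γ₂ * g⁻¹) (g p₂) (g q₂) := CRS_axis ha₂
    have hl1 : Link (g p₂) (g q₂) (g p₁) (g q₁) :=
      (hS _ _ _ _ (fun e => ha₁.1 (g.injective e)) (blk_LHI g _ _ _ _ hlink)).1
    have hl2 : Link (g p₂) (g q₂) p₁ q₁ := by
      rcases CRS_fix ha₁ hc with ⟨e1, e2⟩ | ⟨e1, e2⟩
      · rwa [e1, e2] at hl1
      · rw [e1, e2] at hl1
        exact (hS _ _ _ _ hax.1 hl1).2.2
    obtain ⟨k, hk⟩ := hF2 ⟨g * γ₂ * g⁻¹, hmem⟩ (g p₂) (g q₂) hax (Or.inl hl2)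
      (hM g hg.1 _ rfl)
    refine ⟨γ₁ ^ k, Γ.zpow_mem hγ₁ k, ⟨G.mul_mem (h2 (Γ.zpow_mem hγ₁ k)) hg.1, ?_⟩, _, hk, ?_⟩
    · intro γ hγ
      have hγ' : γ = γ₁ := hγ
      rw [hγ']
      exact (Commute.zpow_self γ₁ k).mul_left hc
    · simp only [Subgroup.coe_mul, Subgroup.coe_inv, Subgroup.coe_zpow, mul_inv_rev, mul_assoc]
  have hInf := hC.2.1 Γ G (Cen G {γ₁})
    {g : H | g ∈ Cen G {γ₁} ∧ g * γ₂ * g⁻¹ ∈ (Subtype.val '' F : Set H)} h3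
    (fun g hg => hg.1) hi key
  exact ⟨γ₂, hγ₂, p₂, q₂, ha₂, hlink, hP Γ G {γ₁} _ (Subtype.val '' F) γ₂ hInf
    (fun g hg => hg.1) (hF1.image _) fun g hg => hg.2⟩

theorem l_EXT (hFN2 : Stmt_FN2) (hPIN : Stmt_PIN) : StmtL_EXT := by
  classical
  intro Γ G h1 _ h3 hm B s t u v hst htu huv hvs hi hfix e he x hx y hy hxy
  have hpi := Real.pi_pos
  obtain ⟨m, M, hM⟩ := hm ⟨e, he⟩ ⟨x, y, hxy⟩
  have hI : IsClosed (Circle.exp '' Icc s t) :=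
    (isCompact_Icc.image Circle.exp.continuous).isClosed
  have hJ : IsClosed (Circle.exp '' Icc u v) :=
    (isCompact_Icc.image Circle.exp.continuous).isClosed
  have hinj : InjOn Circle.exp (Ico s (s + 2 * Real.pi)) := Circle.exp_injOn_Ico (by linarith)
  have hd : Disjoint (Circle.exp '' Icc s t) (Circle.exp '' Icc u v) := by
    rw [Set.disjoint_left]
    rintro z ⟨a, ha, rfl⟩ ⟨b, hb, hab⟩
    have h4 : b = a := hinj ⟨by linarith [hb.1], by linarith [hb.2]⟩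
      ⟨ha.1, by linarith [ha.2]⟩ hab
    linarith [ha.2, hb.1]
  have hF := hFN2 Γ h1 m _ _ hI hJ hd M
  refine hPIN Γ G B (Cen G B) _ e hi Subset.rfl (hF.image (fun γ : Γ => (γ : H))) ?_
  intro g hg
  obtain ⟨gs, gt, gu, gv⟩ := hfix g hg
  refine ⟨⟨g * e * g⁻¹, h3 g hg.1 e he⟩, ⟨g x, ?_, g y, ?_, EXT_axis g e x y hxy,
    hM g hg.1 ⟨g * e * g⁻¹, h3 g hg.1 e he⟩ rfl⟩, rfl⟩
  · exact EXT_map g s t u hst htu (huv.trans hvs) gs gt gu x hx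
  · have gs' : g (Circle.exp (s + 2 * Real.pi)) = Circle.exp (s + 2 * Real.pi) := by
      rw [Circle.exp_add_two_pi, gs]
    exact EXT_map g u v (s + 2 * Real.pi) huv hvs (by linarith) gu gv gs' y hy

/-- one of the four arcs -/
theorem EX1L_arc (hEXT : StmtL_EXT) (Γ G : Subgroup H) (hΓ : FirstKind Γ)
    (hΓG : Γ ≤ G) (hn : ∀ g ∈ G, ∀ γ ∈ Γ, g * γ * g⁻¹ ∈ Γ) (hb : BoundedL Γ G) (B : Set H)
    (hinf : InfMod Γ (Cen G B)) (U : Set Circle) (hU : IsOpen U) (s t u v : ℝ) (h1 : s < t)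
    (h2 : t < u) (h3 : u < v) (h4 : v < s + 2 * Real.pi)
    (hfix : ∀ g ∈ Cen G B, g (Circle.exp s) = Circle.exp s ∧ g (Circle.exp t) = Circle.exp t ∧
      g (Circle.exp u) = Circle.exp u ∧ g (Circle.exp v) = Circle.exp v)
    (hne : (U ∩ Circle.exp '' Ioo s t).Nonempty) :
    ∃ e ∈ Γ, ∃ x ∈ U, ∃ y : Circle, Axis e x y ∧ InfMod Γ (Cen G (insert e B)) := by
  have ho1 : IsOpen (Circle.exp '' Ioo s t) := (blk_ARC s t h1 (by linarith)).1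
  have ho2 : IsOpen (Circle.exp '' Ioo u v) := (blk_ARC u v h3 (by linarith)).1
  obtain ⟨e, he, x, ⟨hx1, hx2⟩, y, hy, hax⟩ := dns Γ hΓ (U ∩ Circle.exp '' Ioo s t)
    (Circle.exp '' Ioo u v) (hU.inter ho1) hne ho2 ((nonempty_Ioo.2 h3).image _)
  exact ⟨e, he, x, hx1, y, hax, hEXT Γ G hΓ hΓG hn hb B s t u v h1 h2 h3 h4 hinf hfix e he
    x hx2 y hy hax⟩

theorem l_EX1 (hFXP : Stmt_FXP) (hEXT : StmtL_EXT) (hCY4 : Stmt_CY4) : StmtL_EX1 := by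
  intro Γ G hΓ hΓG hn hb γ₁ γ₂ p₁ q₁ p₂ q₂ hγ₁ hγ₂ ha₁ ha₂ hl B hB₁ hB₂ hinf U hU hUne
  obtain ⟨s, t, u, v, h1, h2, h3, h4, hs, hu, htv⟩ := hCY4 p₁ q₁ p₂ q₂ ha₁.1 hl
  have hfix : ∀ g ∈ Cen G B, g (Circle.exp s) = Circle.exp s ∧
      g (Circle.exp t) = Circle.exp t ∧ g (Circle.exp u) = Circle.exp u ∧
      g (Circle.exp v) = Circle.exp v := by
    intro g hg
    obtain ⟨f1, f2⟩ := hFXP γ₁ g p₁ q₁ (hΓ.mob _ hγ₁) ha₁ (hg.2 _ hB₁)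
    obtain ⟨f3, f4⟩ := hFXP γ₂ g p₂ q₂ (hΓ.mob _ hγ₂) ha₂ (hg.2 _ hB₂)
    rw [hs, hu]
    rcases htv with ⟨ht, hv⟩ | ⟨ht, hv⟩
    · rw [ht, hv]
      exact ⟨f1, f3, f2, f4⟩
    · rw [ht, hv]
      exact ⟨f1, f4, f2, f3⟩
  obtain ⟨z, hz⟩ := hUne
  obtain ⟨θ, ⟨hθ1, hθ2⟩, rfl⟩ := ARC_surj s z
  have es := EX1_per s
  have et := EX1_per t
  have eu := EX1_per u
  rcases lt_or_ge θ t with c1 | c1
  · exact EX1L_arc hEXT Γ G hΓ hΓG hn hb B hinf U hU s t u v h1 h2 h3 h4 hfix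
      (EX1_pt U hU s t θ hθ1 c1 hz)
  rcases lt_or_ge θ u with c2 | c2
  · refine EX1L_arc hEXT Γ G hΓ hΓG hn hb B hinf U hU t u v (s + 2 * Real.pi) h2 h3 h4
      (by linarith) ?_ (EX1_pt U hU t u θ c1 c2 hz)
    intro g hg
    obtain ⟨f1, f2, f3, f4⟩ := hfix g hg
    rw [es]
    exact ⟨f2, f3, f4, f1⟩
  rcases lt_or_ge θ v with c3 | c3
  · refine EX1L_arc hEXT Γ G hΓ hΓG hn hb B hinf U hU u v (s + 2 * Real.pi)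
      (t + 2 * Real.pi) h3 h4 (by linarith) (by linarith) ?_ (EX1_pt U hU u v θ c2 c3 hz)
    intro g hg
    obtain ⟨f1, f2, f3, f4⟩ := hfix g hg
    rw [es, et]
    exact ⟨f3, f4, f1, f2⟩
  · refine EX1L_arc hEXT Γ G hΓ hΓG hn hb B hinf U hU v (s + 2 * Real.pi)
      (t + 2 * Real.pi) (u + 2 * Real.pi) h4 (by linarith) (by linarith) (by linarith) ?_
      (EX1_pt U hU v (s + 2 * Real.pi) θ c3 hθ2 hz)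
    intro g hg
    obtain ⟨f1, f2, f3, f4⟩ := hfix g hg
    rw [es, et, eu]
    exact ⟨f4, f1, f2, f3⟩

theorem l_ADD (hFXP : Stmt_FXP) (hEXT : StmtL_EXT) (hEX1 : StmtL_EX1) : StmtL_ADD := by
  intro Γ G hΓ hle hnor hbd γ₁ γ₂ p₁ q₁ p₂ q₂ hγ₁ hγ₂ ha₁ ha₂ hl B hB₁ hB₂ hinf e he x y hax
  obtain ⟨σ, τ, hστ, hτσ, hx, hy⟩ := ADD_param x y hax.1
  have hpi : 0 < Real.pi := Real.pi_pos
  have hopen : ∀ s t : ℝ, s < t → t < s + 2 * Real.pi →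
      IsOpen (Circle.exp '' Ioo s t) ∧ (Circle.exp '' Ioo s t).Nonempty := by
    intro s t h1 h2
    exact ⟨(blk_ARC s t h1 h2).1, (nonempty_Ioo.2 h1).image _⟩
  have step : ∀ B₀ : Set H, γ₁ ∈ B₀ → γ₂ ∈ B₀ → InfMod Γ (Cen G B₀) → ∀ s t : ℝ, s < t →
      t < s + 2 * Real.pi → ∃ (e' : H) (α : ℝ) (y' : Circle), e' ∈ Γ ∧ s < α ∧ α < t ∧
        Axis e' (Circle.exp α) y' ∧ InfMod Γ (Cen G (insert e' B₀)) := by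
    intro B₀ h1 h2 h3 s t h4 h5
    obtain ⟨e', he', _, ⟨α, hα, rfl⟩, y', hax', hinf'⟩ := hEX1 Γ G hΓ hle hnor hbd γ₁ γ₂ p₁ q₁
      p₂ q₂ hγ₁ hγ₂ ha₁ ha₂ hl B₀ h1 h2 h3 _ (hopen s t h4 h5).1 (hopen s t h4 h5).2
    exact ⟨e', α, y', he', hα.1, hα.2, hax', hinf'⟩
  obtain ⟨e₁, α₁, y₁, he₁, h1a, h1b, hx₁, hi₁⟩ := step B hB₁ hB₂ hinf σ ((σ + τ) / 2)
    (by linarith) (by linarith)
  obtain ⟨e₂, α₂, y₂, he₂, h2a, h2b, hx₂, hi₂⟩ := step (insert e₁ B) (Or.inr hB₁) (Or.inr hB₂)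
    hi₁ ((σ + τ) / 2) τ (by linarith) (by linarith)
  obtain ⟨e₃, α₃, y₃, he₃, h3a, h3b, hx₃, hi₃⟩ := step (insert e₂ (insert e₁ B))
    (Or.inr (Or.inr hB₁)) (Or.inr (Or.inr hB₂)) hi₂ τ ((τ + σ + 2 * Real.pi) / 2)
    (by linarith) (by linarith)
  obtain ⟨e₄, α₄, y₄, he₄, h4a, h4b, hx₄, hi₄⟩ := step (insert e₃ (insert e₂ (insert e₁ B)))
    (Or.inr (Or.inr (Or.inr hB₁))) (Or.inr (Or.inr (Or.inr hB₂))) hi₃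
    ((τ + σ + 2 * Real.pi) / 2) (σ + 2 * Real.pi) (by linarith) (by linarith)
  set B₄ : Set H := insert e₄ (insert e₃ (insert e₂ (insert e₁ B))) with hB₄
  have hfix : ∀ g ∈ Cen G B₄, ∀ e' ∈ B₄, e' ∈ Γ → ∀ (a b : Circle), Axis e' a b → g a = a :=
    fun g hg e' he' heΓ a b hab => (hFXP e' g a b (hΓ.mob e' heΓ) hab (hg.2 e' he')).1
  have hper : Circle.exp (α₄ - 2 * Real.pi) = Circle.exp α₄ := Circle.periodic_exp.sub_eq α₄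
  have key := hEXT Γ G hΓ hle hnor hbd B₄ (α₄ - 2 * Real.pi) α₁ α₂ α₃ (by linarith)
    (by linarith) (by linarith) (by linarith) hi₄ ?_ e he x ⟨σ, ⟨by linarith, by linarith⟩, hx⟩
    y ⟨τ, ⟨by linarith, by linarith⟩, hy⟩ hax
  · exact ⟨insert e B₄, fun z hz => Or.inr (Or.inr (Or.inr (Or.inr (Or.inr hz)))), Or.inl rfl,
      key⟩
  · intro g hg
    refine ⟨?_, ?_, ?_, ?_⟩
    · rw [hper]
      exact hfix g hg e₄ (Or.inl rfl) he₄ _ _ hx₄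
    · exact hfix g hg e₁ (Or.inr (Or.inr (Or.inr (Or.inl rfl)))) he₁ _ _ hx₁
    · exact hfix g hg e₂ (Or.inr (Or.inr (Or.inl rfl))) he₂ _ _ hx₂
    · exact hfix g hg e₃ (Or.inr (Or.inl rfl)) he₃ _ _ hx₃

theorem l_IND (hCOS : Stmt_COS) (hADD : StmtL_ADD) : StmtL_IND := by
  intro Γ G h1 h2 h3 hm γ₁ γ₂ p₁ q₁ p₂ q₂ hγ₁ hγ₂ ha₁ ha₂ hl B hB₁ hB₂ hi A hA hAΓ hAx
  have key : ∃ B' : Set H, B ⊆ B' ∧ A ⊆ B' ∧ InfMod Γ (Cen G B') := by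
    revert hAΓ hAx
    refine Set.Finite.induction_on A hA ?_ ?_
    · intro _ _
      exact ⟨B, Subset.rfl, empty_subset _, hi⟩
    · intro e A' _ _ ih hAΓ hAx
      obtain ⟨B', hB', hA', hi'⟩ := ih (fun g hg => hAΓ (mem_insert_of_mem _ hg))
        (fun g hg => hAx g (mem_insert_of_mem _ hg))
      obtain ⟨x, y, hxy⟩ := hAx e (mem_insert _ _)
      obtain ⟨B'', hB'', heB, hi''⟩ := hADD Γ G h1 h2 h3 hm γ₁ γ₂ p₁ q₁ p₂ q₂ hγ₁ hγ₂ ha₁ ha₂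
        hl B' (hB' hB₁) (hB' hB₂) hi' e (hAΓ (mem_insert _ _)) x y hxy
      exact ⟨B'', hB'.trans hB'', insert_subset heB (hA'.trans hB''), hi''⟩
  obtain ⟨B', -, hAB', hi'⟩ := key
  exact hCOS.2.2.2 Γ _ _ hi' fun g hg => ⟨hg.1, fun γ hγ => hg.2 γ (hAB' hγ)⟩

theorem twoL (hS : StmtL_STB) (hC : StmtL_CRS) (hI : StmtL_IND) (Γ G : Subgroup H)
    (h1 : FirstKind Γ) (h2 : Γ ≤ G) (h3 : ∀ g ∈ G, ∀ γ ∈ Γ, g * γ * g⁻¹ ∈ Γ)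
    (hm : BoundedL Γ G) (hd : DiscreteIn Γ G) : Conv G := by
  rw [(main Γ G h1 h2 h3).1]
  by_contra hcon
  obtain ⟨γ₁, hγ₁, p₁, q₁, ha₁, hi₁⟩ := hS Γ G h1 h2 h3 hm hcon
  obtain ⟨γ₂, hγ₂, p₂, q₂, ha₂, hl, hi₂⟩ := hC Γ G h1 h2 h3 hm γ₁ p₁ q₁ hγ₁ ha₁ hi₁
  obtain ⟨A, hA, hAΓ, hAx, F, hF, hF'⟩ := hd
  have hi := hI Γ G h1 h2 h3 hm γ₁ γ₂ p₁ q₁ p₂ q₂ hγ₁ hγ₂ ha₁ ha₂ hl {γ₂, γ₁}
    (Or.inr rfl) (Or.inl rfl) hi₂ A hA hAΓ hAx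
  obtain ⟨g, hg, hgF⟩ := hi F hF
  obtain ⟨h, hh, hh'⟩ := hF' g hg
  exact hgF h hh hh'

end Pool.BL
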