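import Pool.Agent.Work.MP_ae1ff6_bl.Interface
import Pool.Agent.Work.MP_ae1ff6_bl.Local

/-!
# Discrete groups of mapping classes with bounded lengths: assembly
-/

open Topology Filter Set
open scoped ComplexConjugate

set_option autoImplicit false

namespace Pool.BL

open Pool.CG

/-- the theorem for one mapping class -/
def Stmt_BL1 : Prop :=
  ∀ (Γ : Subgroup H) (f : H), FirstKind Γ → (∀ γ, γ ∈ Γ ↔ f * γ * f⁻¹ ∈ Γ) →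
    (RealizedW (Γ ⊔ Subgroup.zpowers f) → Bounded1 Γ f ∧ ((∃ n : ℕ, 0 < n ∧ f ^ n ∈ Γ) ∨
      ∀ γ ∈ Γ, ∀ p q, Axis γ p q → ¬ Periodic Γ f p q)) ∧
    (BoundedL1 Γ f → ((∃ n : ℕ, 0 < n ∧ f ^ n ∈ Γ) ∨
      ∃ γ ∈ Γ, ∃ p q, Axis γ p q ∧ ¬ Periodic Γ f p q) → Conv (Γ ⊔ Subgroup.zpowers f))

/-- the theorem for groups, with one metric for each closed geodesic -/
def Stmt_BLL : Prop :=
  ∀ Γ G : Subgroup H, FirstKind Γ → Γ ≤ G → (∀ g ∈ G, ∀ γ ∈ Γ, g * γ * g⁻¹ ∈ Γ) →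
    (RealizedW G → Bounded Γ G ∧ DiscreteIn Γ G) ∧ (BoundedL Γ G → DiscreteIn Γ G → Conv G)

theorem bll_of (hO : Stmt_ONE) (hS : StmtL_STB) (hC : StmtL_CRS) (hI : StmtL_IND) : Stmt_BLL :=
  fun Γ G h1 h2 h3 => ⟨hO Γ G h1 h2 h3, twoL hS hC hI Γ G h1 h2 h3⟩

theorem bd1 (hT : Stmt_TCJ) (Γ : Subgroup H) (f : H)
    (hn : ∀ γ, γ ∈ Γ ↔ f * γ * f⁻¹ ∈ Γ) :
    Bounded1 Γ f ↔ Bounded Γ (Γ ⊔ Subgroup.zpowers f) := by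
  constructor
  · rintro ⟨m, hm⟩
    refine ⟨m, fun γ hγ => ?_⟩
    obtain ⟨M, hM⟩ := hm γ hγ
    refine ⟨M, fun g hg γ' hγ' => ?_⟩
    obtain ⟨κ, hκ, n, rfl⟩ := CYC_mem Γ f hn g hg
    have h1 : f ^ n * (γ : H) * (f ^ n)⁻¹ ∈ Γ := by
      have h2 := CYC_conj Γ f hn (-n) (γ : H) γ.2
      have h3 : (f ^ (-n))⁻¹ * (γ : H) * f ^ (-n) = f ^ n * (γ : H) * (f ^ n)⁻¹ := by
        rw [zpow_neg, inv_inv]
      rwa [h3] at h2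
    have h4 := hM n ⟨_, h1⟩ rfl
    have h5 := hT (m.ρ ⟨κ, hκ⟩) _ M (m.mob _) h4
    have h6 : γ' = ⟨κ, hκ⟩ * ⟨_, h1⟩ * (⟨κ, hκ⟩ : Γ)⁻¹ := by
      apply Subtype.ext
      rw [hγ']
      change κ * f ^ n * (γ : H) * (κ * f ^ n)⁻¹ = κ * (f ^ n * (γ : H) * (f ^ n)⁻¹) * κ⁻¹
      group
    rw [h6, map_mul, map_mul, map_inv]
    exact h5
  · rintro ⟨m, hm⟩
    refine ⟨m, fun γ hγ => ?_⟩
    obtain ⟨M, hM⟩ := hm γ hγ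
    exact ⟨M, fun n γ' hγ' => hM (f ^ n)
      (Subgroup.mem_sup_right (Subgroup.zpow_mem_zpowers f n)) γ' hγ'⟩

theorem bdl1 (hT : Stmt_TCJ) (Γ : Subgroup H) (f : H)
    (hn : ∀ γ, γ ∈ Γ ↔ f * γ * f⁻¹ ∈ Γ) (h : BoundedL1 Γ f) :
    BoundedL Γ (Γ ⊔ Subgroup.zpowers f) := by
  intro γ hγ
  obtain ⟨m, M, hM⟩ := h γ hγ
  refine ⟨m, M, fun g hg γ' hγ' => ?_⟩
  obtain ⟨κ, hκ, n, rfl⟩ := CYC_mem Γ f hn g hg
  have h1 : f ^ n * (γ : H) * (f ^ n)⁻¹ ∈ Γ := by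
    have h2 := CYC_conj Γ f hn (-n) (γ : H) γ.2
    have h3 : (f ^ (-n))⁻¹ * (γ : H) * f ^ (-n) = f ^ n * (γ : H) * (f ^ n)⁻¹ := by
      rw [zpow_neg, inv_inv]
    rwa [h3] at h2
  have h4 := hM n ⟨_, h1⟩ rfl
  have h5 := hT (m.ρ ⟨κ, hκ⟩) _ M (m.mob _) h4
  have h6 : γ' = ⟨κ, hκ⟩ * ⟨_, h1⟩ * (⟨κ, hκ⟩ : Γ)⁻¹ := by
    apply Subtype.ext
    rw [hγ']
    change κ * f ^ n * (γ : H) * (κ * f ^ n)⁻¹ = κ * (f ^ n * (γ : H) * (f ^ n)⁻¹) * κ⁻¹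
    group
  rw [h6, map_mul, map_mul, map_inv]
  exact h5

theorem per_pow (Γ : Subgroup H) (f : H) (hn : ∀ γ, γ ∈ Γ ↔ f * γ * f⁻¹ ∈ Γ) (p q : Circle)
    (n : ℕ) (κ : H) (hκ : κ ∈ Γ) (h : ({(κ * f ^ n) p, (κ * f ^ n) q} : Set Circle) = {p, q})
    (k : ℕ) : ∃ κ' ∈ Γ, ({(κ' * f ^ (n * k)) p, (κ' * f ^ (n * k)) q} : Set Circle) = {p, q} := by
  induction k with
  | zero =>
    refine ⟨1, Γ.one_mem, ?_⟩
    rw [mul_zero, pow_zero, mul_one]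
    rfl
  | succ k ih =>
    obtain ⟨κ', hκ', h'⟩ := ih
    have h1 : f ^ n * κ' * (f ^ n)⁻¹ ∈ Γ := by
      have h2 := CYC_conj Γ f hn (-(n : ℤ)) κ' hκ'
      have h3 : (f ^ (-(n : ℤ)))⁻¹ * κ' * f ^ (-(n : ℤ)) = f ^ n * κ' * (f ^ n)⁻¹ := by
        rw [zpow_neg, inv_inv, zpow_natCast]
      rwa [h3] at h2
    refine ⟨κ * (f ^ n * κ' * (f ^ n)⁻¹), Γ.mul_mem hκ h1, ?_⟩
    have h4 : κ * (f ^ n * κ' * (f ^ n)⁻¹) * f ^ (n * (k + 1)) =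
        (κ * f ^ n) * (κ' * f ^ (n * k)) := by
      rw [mul_add, mul_one, add_comm, pow_add]
      group
    have h5 : ∀ z, (κ * (f ^ n * κ' * (f ^ n)⁻¹) * f ^ (n * (k + 1))) z =
        (κ * f ^ n) ((κ' * f ^ (n * k)) z) := by
      intro z
      rw [h4]
      rfl
    rw [h5, h5]
    have h6 : ({(κ * f ^ n) ((κ' * f ^ (n * k)) p), (κ * f ^ n) ((κ' * f ^ (n * k)) q)} :
        Set Circle) = (κ * f ^ n) '' {(κ' * f ^ (n * k)) p, (κ' * f ^ (n * k)) q} := by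
      rw [image_pair]
    rw [h6, h', image_pair, h]

theorem bl1_of (hB : Stmt_BLL) (hT : Stmt_TCJ) (hY : Stmt_CYB) : Stmt_BL1 := by
  intro Γ f hΓ hn
  have hn' : ∀ g ∈ Γ ⊔ Subgroup.zpowers f, ∀ γ ∈ Γ, g * γ * g⁻¹ ∈ Γ := by
    intro g hg γ hγ
    exact (Subgroup.mem_normalizer_iff.1 (CYC_norm Γ f hn hg) γ).1 hγ
  obtain ⟨b1, b2⟩ := hB Γ (Γ ⊔ Subgroup.zpowers f) hΓ le_sup_left hn'
  refine ⟨fun hR => ⟨(bd1 hT Γ f hn).2 (b1 hR).1, ?_⟩, fun hb hf => ?_⟩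
  · have h1 := rl2 Γ (Γ ⊔ Subgroup.zpowers f) hΓ le_sup_left hn' hR
    rcases (cyc Γ f hΓ hn).1.1 h1 with h2 | h2
    · exact Or.inl h2
    · right
      rintro γ hγ p q hax ⟨n, hn0, κ, hκ, hper⟩
      have h3 := h2 γ hγ γ hγ p q p q hax hax
      have h4 : Set.range (fun k : ℕ => ((n * k : ℕ) : ℤ)) ⊆
          {n : ℤ | ∃ κ ∈ Γ, Meets (κ * f ^ n) p q p q} := by
        rintro _ ⟨k, rfl⟩
        obtain ⟨κ', hκ', h5⟩ := per_pow Γ f hn p q n κ hκ hper k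
        refine ⟨κ', hκ', Or.inr ?_⟩
        rw [zpow_natCast]
        exact h5
      have h5 : (Set.range (fun k : ℕ => ((n * k : ℕ) : ℤ))).Infinite := by
        apply Set.infinite_range_of_injective
        intro a b hab
        have h7 : ((n * a : ℕ) : ℤ) = ((n * b : ℕ) : ℤ) := hab
        have h6 : n * a = n * b := by exact_mod_cast h7
        exact Nat.eq_of_mul_eq_mul_left hn0 h6
      exact h5 (h3.subset h4)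
  · rcases hf with h1 | ⟨γ, hγ, p, q, hax, hper⟩
    · exact (cyc Γ f hΓ hn).1.2 (Or.inl h1)
    · exact b2 (bdl1 hT Γ f hn hb) (hY Γ f hΓ hn γ hγ p q hax hper)

end Pool.BL
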