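import Pool.Agent.Work.MP_ae1ff6_bl.Interface

open Topology Filter Set
open scoped ComplexConjugate

set_option autoImplicit false

namespace Pool.BL

open Pool.CG

theorem p_COS : Stmt_COS := by
  refine ⟨?_, ?_, ?_, ?_⟩
  · intro Γ T S φ hT hφ hS
    by_contra hcon
    push Not at hcon
    have h1 : ∀ x ∈ S, ∃ F : Set H, F.Finite ∧ ∀ g ∈ T, φ g = x → ∃ h ∈ F, h⁻¹ * g ∈ Γ := by
      intro x hx
      have h2 := hcon x hx
      unfold InfMod at h2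
      push Not at h2
      obtain ⟨F, hF, h3⟩ := h2
      exact ⟨F, hF, fun g hg hgx => h3 g ⟨hg, hgx⟩⟩
    choose! F hF1 hF2 using h1
    obtain ⟨g, hg, h4⟩ := hT (⋃ x ∈ S, F x) (hS.biUnion fun x hx => hF1 x hx)
    obtain ⟨h, hh, h5⟩ := hF2 (φ g) (hφ g hg) g hg rfl
    exact h4 h (Set.mem_biUnion (hφ g hg) hh) h5
  · intro Γ G T T' hn hTG hT hT' F hF
    obtain ⟨g, hg, h1⟩ := hT F hF
    obtain ⟨κ, hκ, h2⟩ := hT' g hg
    refine ⟨κ * g, h2, fun h hh h3 => h1 h hh ?_⟩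
    have h4 : g⁻¹ * κ * g⁻¹⁻¹ ∈ Γ := hn g⁻¹ (inv_mem (hTG hg)) κ hκ
    have h5 : h⁻¹ * g = h⁻¹ * (κ * g) * (g⁻¹ * κ * g⁻¹⁻¹)⁻¹ := by group
    rw [h5]
    exact mul_mem h3 (inv_mem h4)
  · intro Γ T k hT F hF
    obtain ⟨g, hg, h1⟩ := hT ((fun h => k * h) '' F) (hF.image _)
    refine ⟨k⁻¹ * g, ?_, ?_⟩
    · show k * (k⁻¹ * g) ∈ T
      rw [mul_inv_cancel_left]
      exact hg
    · intro h hh h2
      refine h1 (k * h) ⟨h, hh, rfl⟩ ?_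
      rw [mul_inv_rev, mul_assoc]
      exact h2
  · intro Γ T T' hT hTT F hF
    obtain ⟨g, hg, h1⟩ := hT F hF
    exact ⟨g, hTT hg, h1⟩

end Pool.BL
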