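import Pool.Agent.Work.MP_ae1ff6_bl.Interface

/-!
# Block ONE (typed by helper35): realized groups are discrete with bounded lengths
-/

open Topology Filter Set
open scoped ComplexConjugate

set_option autoImplicit false

namespace Pool.BL

open Pool.CG

theorem ONE_meets (γ g : H) (p q : Circle) (hax : Axis γ p q) (hc : g * γ = γ * g) :
    Meets g p q p q := by
  right
  have hfix : ∀ z : Circle, γ z = z → γ (g z) = g z := by
    intro z hz
    have h1 : (γ * g) z = (g * γ) z := by rw [hc]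
    have h2 : γ (g z) = g (γ z) := h1
    rw [h2, hz]
  have hp : g p = p ∨ g p = q := (hax.2 (g p)).1 (hfix p ((hax.2 p).2 (Or.inl rfl)))
  have hq : g q = p ∨ g q = q := (hax.2 (g q)).1 (hfix q ((hax.2 q).2 (Or.inr rfl)))
  have hne : g p ≠ g q := fun h => hax.1 (g.injective h)
  rcases hp with hp | hp <;> rcases hq with hq | hq
  · exact absurd (hp.trans hq.symm) hne
  · rw [hp, hq]
  · rw [hp, hq, Set.pair_comm]
  · exact absurd (hp.trans hq.symm) hne

theorem p_ONE (h1 : Stmt_TCJ) : Stmt_ONE := by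
  intro Γ G hF hle hn hR
  constructor
  · obtain ⟨ρ, π, hmob, hcont, hsurj, hequi⟩ := hR
    refine ⟨⟨ρ.comp (Subgroup.inclusion hle), π, fun γ => hmob _, hcont, hsurj,
      fun γ x => hequi (Subgroup.inclusion hle γ) x⟩, ?_⟩
    intro γ _
    obtain ⟨α, β, hαβ, hz⟩ := hmob (Subgroup.inclusion hle γ)
    refine ⟨|α.re|, fun g hg γ' hγ' => ?_⟩
    change TrLe (ρ (Subgroup.inclusion hle γ')) |α.re|
    have h2 : Subgroup.inclusion hle γ' =
        ⟨g, hg⟩ * Subgroup.inclusion hle γ * (⟨g, hg⟩ : G)⁻¹ := by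
      apply Subtype.ext
      exact hγ'
    rw [h2, map_mul, map_mul, map_inv]
    exact h1 _ _ _ (hmob _) ⟨α, β, hαβ, hz, le_rfl⟩
  · have hC : Conv G := rl2 Γ G hF hle hn hR
    have hD : Displaces Γ G := ((main Γ G hF hle hn).1).1 hC
    obtain ⟨γ, hγ, p, -, q, -, hax⟩ := dns Γ hF Set.univ Set.univ isOpen_univ
      Set.univ_nonempty isOpen_univ Set.univ_nonempty
    obtain ⟨F, hFf, hFg⟩ := hD γ hγ γ hγ p q p q hax hax
    refine ⟨{γ}, Set.finite_singleton γ, ?_, ?_, F, hFf, ?_⟩
    · intro x hx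
      rw [Set.mem_singleton_iff.1 hx]
      exact hγ
    · intro x hx
      rw [Set.mem_singleton_iff.1 hx]
      exact ⟨p, q, hax⟩
    · intro g hg
      exact hFg g hg.1 (ONE_meets γ g p q hax (hg.2 γ (Set.mem_singleton γ)))

end Pool.BL
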