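import Pool.Agent.Work.MP_ae1ff6_cg.Interface2

/-!
# Discrete groups of mapping classes with bounded lengths (MP_ae1ff6_gt): definitions

The setting is the one of `Pool/Agent/Work/MP_ae1ff6_cg/Defs.lean`: `S = 𝔻 / Γ`, `Γ` a Fuchsian group of
the first kind, and `G / Γ` is a group of mapping classes of `S`, `Γ` normal in the group `G` of
homeomorphisms of the circle. Closed geodesics of `S` are given by the hyperbolic elements of `Γ`
(the elements with an axis).
-/

open Topology
open scoped ComplexConjugate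

set_option autoImplicit false

namespace Pool.BL

open Pool.CG

/-- A complete hyperbolic metric on the surface `S = 𝔻 / Γ` (with marking): a homomorphism `ρ` from
`Γ` to the Möbius maps (the metric is the one of `𝔻 / ρ(Γ)`, which may be of the first or of the
second kind) and a continuous map `π` from the circle onto the circle (the boundary map of the
marking) with `π ∘ ρ γ = γ ∘ π`. -/
structure HypMetric (Γ : Subgroup H) where
  ρ : Γ →* H
  π : Circle → Circle
  mob : ∀ γ, IsMob (ρ γ)
  cont : Continuous π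
  surj : Function.Surjective π
  equi : ∀ (γ : Γ) (x : Circle), π (ρ γ x) = (γ : H) (π x)

/-- `g` is a Möbius map with parameters `α`, `β` such that `|Re α| ≤ M`. If `g` is hyperbolic this
means that its translation length `2 arcosh |Re α|` is at most `2 arcosh M`. -/
def TrLe (g : H) (M : ℝ) : Prop :=
  ∃ α β : ℂ, ‖α‖ ^ 2 - ‖β‖ ^ 2 = 1 ∧
    (∀ z : Circle, (g z : ℂ) = (α * (z : ℂ) + β) / (conj β * (z : ℂ) + conj α)) ∧ |α.re| ≤ M

/-- For each closed geodesic `γ` the lengths, in the metric `m`, of its images under the mapping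
classes in `G / Γ` are bounded. -/
def BdM (Γ G : Subgroup H) (m : HypMetric Γ) : Prop :=
  ∀ γ : Γ, (∃ p q, Axis (γ : H) p q) → ∃ M : ℝ, ∀ g ∈ G, ∀ γ' : Γ, (γ' : H) = g * γ * g⁻¹ →
    TrLe (m.ρ γ') M

/-- The group `G / Γ` of mapping classes has bounded lengths for some complete hyperbolic metric. -/
def Bounded (Γ G : Subgroup H) : Prop := ∃ m : HypMetric Γ, BdM Γ G m

/-- the elements of `G` which commute with all elements of `B` -/
def Cen (G : Subgroup H) (B : Set H) : Set H := {g | g ∈ G ∧ ∀ γ ∈ B, g * γ = γ * g}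

/-- `G / Γ` is a discrete subgroup of the mapping class group: there is a finite set `A` of
hyperbolic elements of `Γ` such that only finitely many classes `g Γ`, `g ∈ G`, contain an element
which commutes with all elements of `A`. -/
def DiscreteIn (Γ G : Subgroup H) : Prop :=
  ∃ A : Set H, A.Finite ∧ A ⊆ Γ ∧ (∀ γ ∈ A, ∃ p q, Axis γ p q) ∧
    ∃ F : Set H, F.Finite ∧ ∀ g ∈ Cen G A, ∃ h ∈ F, h⁻¹ * g ∈ Γ

/-- the closed geodesic with the lift from `p` to `q` is periodic under the mapping class `f Γ` -/
def Periodic (Γ : Subgroup H) (f : H) (p q : Circle) : Prop :=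
  ∃ n : ℕ, 0 < n ∧ ∃ κ ∈ Γ, ({(κ * f ^ n) p, (κ * f ^ n) q} : Set Circle) = {p, q}

/-- `T` meets infinitely many cosets `h Γ` -/
def InfMod (Γ : Subgroup H) (T : Set H) : Prop :=
  ∀ F : Set H, F.Finite → ∃ g ∈ T, ∀ h ∈ F, h⁻¹ * g ∉ Γ

end Pool.BL
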