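import Pool.Agent.Work.MP_ae1ff6_bl.Defs
import Pool.Agent.Work.MP_ae1ff6_cg.All

/-!
# Discrete groups of mapping classes with bounded lengths (MP_ae1ff6_gt, THEOREM BL, helper38)

Block `X`: file `Pool/Agent/Work/MP_ae1ff6_bl/B_X.lean`, `import Pool.Agent.Work.MP_ae1ff6_bl.Interface`,
`namespace Pool.BL`, `open Pool.CG` and the `open` lines of this file,
`theorem p_X (h1 : Stmt_Y) .. : Stmt_X` with exactly the blocks of the column `uses`, in this order, as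
hypotheses; auxiliary lemmas with the prefix `X_`. All finished blocks of `MP_ae1ff6_cg` may be used
freely: `mb1`, `blk_MB2 mb1`, `blk_MB3 mb1`, `bnd`, `pig`, `dns`, `main`, `rl2`, `cyc`, `blk_LHI`, `blk_ARC`,
`blk_LOP blk_ARC`, `blk_LUB blk_LFV`, `blk_HYP mb1`, `blk_ELL mb1 (blk_MB2 mb1)`, and the auxiliary lemmas
`RL2_real`, `RL2_prod`, `RL2_scale`, `RL2_ord`, `RL2_inj`, `RL2_unif`, `RL2_small`, `RL2_fp` (with `G = Γ`),
`HFP_axis`, `ELL_fix`, `CYC_..` (statements in `MP_ae1ff6_cg/Interface.lean`, `Interface2.lean`).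
`H = Circle ≃ₜ Circle` is a group, `(g * h) z = g (h z)` by `rfl`. `TrLe g M` unfolds to `Par g α β`
(`MB1`: the denominator is not zero) and `|Re α| ≤ M`.
-/

open Topology Filter Set
open scoped ComplexConjugate

set_option autoImplicit false

namespace Pool.BL

open Pool.CG

/-! ### A. Möbius maps and hyperbolic metrics -/

/-- DYN (120 lines; uses nothing). Attracting and repelling fixed point. `Par N α β`,
`D z = conj β z + conj α`. By `RL2_scale` the function `φ z = dist z p / dist z q` satisfies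
`φ (N ^ n z) = φ z c ^ n`, `c = ‖D q‖ / ‖D p‖`; `D p * D q = 1` (`RL2_prod`), both are real
(`RL2_real`), and `c ≠ 1` (else `D p = D q`, so `conj β (p - q) = 0`, `β = 0`, and `N` would be a
rotation; see the proof of `RL2_ord`). If `c < 1` then `φ (N ^ n z) → 0`, so `dist (N ^ n z) p → 0`
(`dist _ q ≤ 2`). For `N⁻¹`: `φ (N⁻¹ z) = c⁻¹ φ z`, exchange `p` and `q`. -/
def Stmt_DYN : Prop :=
  ∀ (N : H) (p q : Circle), IsMob N → Axis N p q →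
    ((∀ z, z ≠ q → Tendsto (fun n : ℕ => (N ^ n) z) atTop (𝓝 p)) ∧
      ∀ z, z ≠ p → Tendsto (fun n : ℕ => (N⁻¹ ^ n) z) atTop (𝓝 q)) ∨
    ((∀ z, z ≠ p → Tendsto (fun n : ℕ => (N ^ n) z) atTop (𝓝 q)) ∧
      ∀ z, z ≠ q → Tendsto (fun n : ℕ => (N⁻¹ ^ n) z) atTop (𝓝 p))

/-- PRB (120 lines; uses nothing). Parabolic maps. `Par N α β`, `D z = conj β z + conj α`, `d = D x`.
`d` is real (`RL2_real`) and `d ^ 2 - 2 (Re α) d + 1 = 0` (from `α x + β = x d`, `conj β x + conj α = d`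
and `‖α‖ ^ 2 - ‖β‖ ^ 2 = 1`). `|Re α| ≤ 1`: otherwise `HFP_axis` gives two fixed points. So `d = ± 1`.
`β ≠ 0` (otherwise `N` is a rotation with a fixed point, so `1`). For `z ≠ x` by MB1 (or directly)
`N z - x = (z - x) / (D z * d)` and `D z = d + conj β (z - x)`, so
`(N z - x)⁻¹ = (z - x)⁻¹ + d conj β` and `(N ^ n z - x)⁻¹ = (z - x)⁻¹ + n d conj β`, whose norm tends to
infinity. -/
def Stmt_PRB : Prop :=
  ∀ (N : H) (x : Circle), IsMob N → N ≠ 1 → N x = x → (∀ z, N z = z → z = x) →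
    ∀ z, Tendsto (fun n : ℕ => (N ^ n) z) atTop (𝓝 x)

/-- HYR (150 lines; uses DYN, PRB). Hyperbolic elements are hyperbolic for every metric. Let
`N = ρ γ`. `RL2_fp` (with `G = Γ`) gives `N ≠ 1` and a fixed point `x` of `N`. If `N z = z` then
`γ (π z) = π z`, so `π z ∈ {r, s}`. (1) Suppose that `x` is the only fixed point. Take `z` with
`π z ∈ {r, s}`, `π z ≠ π x` (surjectivity). PRB: `N ^ n z → x`, so `π z = γ ^ n (π z) = π (N ^ n z) → π x`, a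
contradiction. (2) So there is a second fixed point `y`, and `Axis N x y` by MB3. DYN: for `z ≠ x, y`
the points `N ^ n z` and `N⁻¹ ^ n z` converge to `x` and `y` (or to `y` and `x`); if `π z = w ∈ {r, s}` then
`π (N ^ n z) = w = π (N⁻¹ ^ n z)`, so `π x = w = π y`. This is impossible: take `z'` with
`π z' ∈ {r, s} \ {w}`, then `z' ≠ x, y` and `π x = π z'`. So `π⁻¹ {r, s} ⊆ {x, y}`, and by surjectivity one of
`x`, `y` is mapped to `r` and the other one to `s`. -/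
def Stmt_HYR : Prop :=
  ∀ Γ : Subgroup H, FirstKind Γ → ∀ (m : HypMetric Γ) (γ : Γ) (r s : Circle), Axis (γ : H) r s →
    ∃ r' s' : Circle, Axis (m.ρ γ) r' s' ∧ (∀ x, m.π x = r ↔ x = r') ∧ ∀ x, m.π x = s ↔ x = s'

/-- LNK (30 lines; uses nothing). A preconnected set `t` which contains `r'`, `s'` has the
preconnected image `π t ∋ r, s`, which contains `p` or `q`. -/
def Stmt_LNK : Prop :=
  ∀ (π : Circle → Circle) (p q r s p' q' r' s' : Circle), Continuous π →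
    (∀ x, π x = p ↔ x = p') → (∀ x, π x = q ↔ x = q') → (∀ x, π x = r ↔ x = r') →
    (∀ x, π x = s ↔ x = s') → Link p q r s → Link p' q' r' s'

/-- TCJ (60 lines; uses nothing). By MB2 the first parameter of `n g n⁻¹` is
`(a α + b conj β) conj a - (a β + b conj α) conj b` for `Par n a b`, `Par g α β`; its real part is
`(‖a‖ ^ 2 - ‖b‖ ^ 2) Re α + Re (w - conj w) = Re α`, `w = conj a * b * conj β`. -/
def Stmt_TCJ : Prop :=
  ∀ (n g : H) (M : ℝ), IsMob n → TrLe g M → TrLe (n * g * n⁻¹) M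

/-- BDB (100 lines; uses nothing). `Par N α β`, `p` and `q` are the two solutions of
`conj β z ^ 2 + (conj α - α) z - β = 0`, so `conj β (p + q) = α - conj α`, `conj β p q = - β` (subtract the
two equations, `p ≠ q`) and `(conj β) ^ 2 (p - q) ^ 2 = (α - conj α) ^ 2 + 4 ‖β‖ ^ 2 = 4 ((Re α) ^ 2 - 1)`
(`‖β‖ ^ 2 = (Re α) ^ 2 + (Im α) ^ 2 - 1`). So `(‖β‖ dist p q) ^ 2 ≤ 4 (M + 1) ^ 2` (`0 ≤ M`). -/
def Stmt_BDB : Prop :=
  ∀ (N : H) (p q : Circle) (M ε : ℝ), Axis N p q → TrLe N M → 0 < ε → ε ≤ dist p q →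
    ∃ α β : ℂ, Par N α β ∧ ‖β‖ * ε ≤ 2 * (M + 1)

/-- DSR (70 lines; uses nothing). `ρ Γ` is discrete. Otherwise the set is infinite, `ρ` is injective
(`RL2_inj` with `G = Γ`), so its image `T` is infinite and PIG gives for `η` (from `RL2_small` for the
`ε` of the discreteness of `Γ`) different `g = ρ γ`, `g' = ρ γ'` in `T` such that `ρ (γ⁻¹ γ')` is `η`-near to
the identity; so `γ⁻¹ γ'` is `ε`-near to the identity, `γ = γ'`. -/
def Stmt_DSR : Prop :=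
  ∀ Γ : Subgroup H, FirstKind Γ → ∀ (m : HypMetric Γ) (R : ℝ),
    {γ : Γ | ∃ α β : ℂ, Par (m.ρ γ) α β ∧ ‖β‖ ≤ R}.Finite

/-- FNL (150 lines; uses HYR, LNK, TCJ, BDB, DSR). Finitely many geodesics of bounded length meet a
given one. `N = ρ δ` has an axis `(r', s')` (HYR); `ρ₀` from HYP for `N`, `ε₁` from LUB for `r'`, `s'`,
`ρ₀`; `ε = min ε₁ (dist r' s')`; `F` is the set of the `γ` with `Par (ρ γ) α β`,
`‖β‖ ≤ 2 (M + 1) / ε` (DSR; if `M < 0` there is nothing to prove). Let `γ` have the axis `(p, q)` and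
`(p', q')` from HYR. (1) `Link p q r s`: `Link p' q' r' s'` (LNK). There is `k` with
`dist (N ^ k p') r', dist (N ^ k p') s' ≥ ρ₀` (HYP), `Link (N ^ k p') (N ^ k q') r' s'` (LHI, `N ^ k` fixes `r'`
and `s'`), so `ε₁ ≤ dist (N ^ k p') (N ^ k q')` (LUB); these are the fixed points of
`N ^ k ρ γ (N ^ k)⁻¹ = ρ (δ ^ k γ (δ ^ k)⁻¹)`; TCJ and BDB. (2) `{p, q} = {r, s}`: `{p', q'} = {r', s'}`,
`k = 0`. -/
def Stmt_FNL : Prop :=
  ∀ Γ : Subgroup H, FirstKind Γ → ∀ (m : HypMetric Γ) (δ : Γ) (r s : Circle),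
    Axis (δ : H) r s → ∀ M : ℝ, ∃ F : Set Γ, F.Finite ∧ ∀ (γ : Γ) (p q : Circle),
      Axis (γ : H) p q → (Link p q r s ∨ ({p, q} : Set Circle) = {r, s}) → TrLe (m.ρ γ) M →
      ∃ k : ℤ, δ ^ k * γ * (δ ^ k)⁻¹ ∈ F

/-- FN2 (70 lines; uses HYR, BDB, DSR). `π⁻¹ I` and `π⁻¹ J` are disjoint compact sets, so they have a
positive distance `ε` (`IsCompact.exists_infDist_eq_dist`, or a sequence argument, or
`Disjoint.exists_thickenings`); `p'` and `q'` (HYR) are in them. BDB, DSR. (If `I` or `J` is empty the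
set is empty.) -/
def Stmt_FN2 : Prop :=
  ∀ Γ : Subgroup H, FirstKind Γ → ∀ (m : HypMetric Γ) (I J : Set Circle), IsClosed I →
    IsClosed J → Disjoint I J → ∀ M : ℝ,
    {γ : Γ | ∃ p ∈ I, ∃ q ∈ J, Axis (γ : H) p q ∧ TrLe (m.ρ γ) M}.Finite

/-! ### B. Cosets and centralizers -/

/-- COS (80 lines; uses nothing). (1) Otherwise for each `x ∈ S` there is a finite set `F x` which
meets all cosets of the part of `T` over `x`; the union of the `F x` is a finite set which meets all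
cosets of `T`. (2) For `h ∈ F`: `h⁻¹ κ g = (h⁻¹ g) (g⁻¹ κ g)` and `g⁻¹ κ g ∈ Γ` (normality for `g⁻¹`), so
`h⁻¹ κ g ∈ Γ` implies `h⁻¹ g ∈ Γ`. (3) For the finite set `F` take `g ∈ T` for the finite set
`{k h | h ∈ F}` and the element `k⁻¹ g`. (4) clear. -/
def Stmt_COS : Prop :=
  (∀ (Γ : Subgroup H) (T S : Set H) (φ : H → H), InfMod Γ T → (∀ g ∈ T, φ g ∈ S) → S.Finite →
    ∃ x ∈ S, InfMod Γ {g | g ∈ T ∧ φ g = x}) ∧
  (∀ (Γ G : Subgroup H) (T T' : Set H), (∀ g ∈ G, ∀ γ ∈ Γ, g * γ * g⁻¹ ∈ Γ) → T ⊆ G →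
    InfMod Γ T → (∀ g ∈ T, ∃ κ ∈ Γ, κ * g ∈ T') → InfMod Γ T') ∧
  (∀ (Γ : Subgroup H) (T : Set H) (k : H), InfMod Γ T → InfMod Γ {h | k * h ∈ T}) ∧
  ∀ (Γ : Subgroup H) (T T' : Set H), InfMod Γ T → T ⊆ T' → InfMod Γ T'

/-- PIN (80 lines; uses COS). Pigeonhole. COS (1) for `φ g = g e g⁻¹` gives `x` and the set
`T' = {g ∈ T | g e g⁻¹ = x}`; it is not empty (`InfMod` for `F = ∅`), let `k ∈ T'`. If `k h ∈ T'` then `h ∈ G`,
`h` commutes with `B` (`k` and `k h` do) and `(k h) e (k h)⁻¹ = k e k⁻¹`, so `h e = e h`. COS (3), (4). -/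
def Stmt_PIN : Prop :=
  ∀ (Γ G : Subgroup H) (B T S : Set H) (e : H), InfMod Γ T → T ⊆ Cen G B → S.Finite →
    (∀ g ∈ T, g * e * g⁻¹ ∈ S) → InfMod Γ (Cen G (insert e B))

/-- STB (120 lines; uses FNL, COS, PIN). `Displaces` fails for some `γ`, `δ`, `(p, q)`, `(r, s)`: the set
`T = {g ∈ G | Meets g p q r s}` satisfies `InfMod`. For `g ∈ T` the element `γ' = g γ g⁻¹ ∈ Γ` has the
axis `(g p, g q)`, so it is in the situation of FNL (with `M` from `BdM` for `γ`): `F` finite,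
`δ ^ k γ' (δ ^ k)⁻¹ ∈ F`, and `g' = δ ^ k g` satisfies `g' γ g'⁻¹ ∈ F`. COS (2): the set of the `g' ∈ G` with
`g' γ g'⁻¹ ∈ F` (image of `F` in `H`) satisfies `InfMod`. PIN with `B = ∅`. -/
def Stmt_STB : Prop :=
  ∀ (Γ G : Subgroup H) (m : HypMetric Γ), FirstKind Γ → Γ ≤ G →
    (∀ g ∈ G, ∀ γ ∈ Γ, g * γ * g⁻¹ ∈ Γ) → BdM Γ G m → ¬ Displaces Γ G →
    ∃ γ ∈ Γ, ∃ p q : Circle, Axis γ p q ∧ InfMod Γ (Cen G {γ})

/-! ### C. Adding closed geodesics -/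

/-- SYM (90 lines; uses nothing). `a = exp s`, `b = exp t` with `s < t < s + 2π`; every other point is in
`exp '' Ioo s t` or in `exp '' Ioo t (s + 2π)`. `c` and `d` are not in the same one of these two
(connected, without `a` and `b`; `Circle.exp` is injective on `Ico s (s + 2π)`). Say `c = exp σ`,
`s < σ < t`, `d = exp τ`, `t < τ < s + 2π`. ARC for `σ < τ`: `b = exp t`, `t ∈ Ioo σ τ` and
`a = exp (s + 2π)`, `s + 2π ∈ Ioo τ (σ + 2π)`: `Link c d b a`. `Link` is symmetric in the last two points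
(by definition) and in the first two points. -/
def Stmt_SYM : Prop :=
  ∀ a b c d : Circle, a ≠ b → Link a b c d → Link c d a b ∧ Link b a c d ∧ Link a b d c

/-- CRS (130 lines; uses FNL, COS, PIN, SYM). LOP for `p₁`, `q₁` and DNS: `γ₂ ∈ Γ` with the axis
`(p₂, q₂)`, `Link p₁ q₁ p₂ q₂`. `T = Cen G {γ₁}`. For `g ∈ T`: `g` maps the set `{p₁, q₁}` of the fixed points
of `γ₁` to itself, `γ' = g γ₂ g⁻¹` has the axis `(g p₂, g q₂)`, and `Link (g p₁) (g q₁) (g p₂) (g q₂)` (LHI),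
so `Link (g p₂) (g q₂) p₁ q₁` (SYM). FNL for `δ = γ₁`, `M` from `BdM` for `γ₂`: `g' = γ₁ ^ k g ∈ T` (it
commutes with `γ₁`) and `g' γ₂ g'⁻¹ ∈ F`. COS (2) and PIN (`insert γ₂ {γ₁}`). -/
def Stmt_CRS : Prop :=
  ∀ (Γ G : Subgroup H) (m : HypMetric Γ), FirstKind Γ → Γ ≤ G →
    (∀ g ∈ G, ∀ γ ∈ Γ, g * γ * g⁻¹ ∈ Γ) → BdM Γ G m → ∀ (γ₁ : H) (p₁ q₁ : Circle), γ₁ ∈ Γ →
    Axis γ₁ p₁ q₁ → InfMod Γ (Cen G {γ₁}) →
    ∃ γ₂ ∈ Γ, ∃ p₂ q₂ : Circle, Axis γ₂ p₂ q₂ ∧ Link p₁ q₁ p₂ q₂ ∧ InfMod Γ (Cen G {γ₂, γ₁})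

/-- FXP (60 lines; uses DYN). By DYN (say the first case) `γ ^ n z → p` for all `z ≠ q`. Choose `z` with
`z ≠ q` and `g z ≠ q`: `g (γ ^ n z) = γ ^ n (g z)`, the left side tends to `g p`, the right side to `p`.
In the same way `g q = q` with `γ⁻¹`. -/
def Stmt_FXP : Prop :=
  ∀ (γ g : H) (p q : Circle), IsMob γ → Axis γ p q → g * γ = γ * g → g p = p ∧ g q = q

/-- EXT (130 lines; uses FN2, PIN). `T = Cen G B`. Each `g ∈ T` maps the arc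
`exp '' Icc s t` to itself: let `x` be in the open arc and suppose `g x ∈ exp '' Ioo t (s + 2π)`.
`Link (exp s) (exp t) x (exp u)` (ARC), so `Link (exp s) (exp t) (g x) (exp u)` (LHI); but `g x` and `exp u`
are both in the connected set `exp '' Ioo t (s + 2π)`, which does not contain `exp s`, `exp t`
(`Circle.exp` is injective on `Ico s (s + 2π)`). In the same way for `exp '' Icc u v` (with `exp s`, as
`exp s = exp (s + 2π)`, in the complement). So `g e g⁻¹` has the axis `(g x, g y)` in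
`I × J`, `I = exp '' Icc s t`, `J = exp '' Icc u v` (closed, disjoint). FN2 with `M` from `BdM` for `e`;
PIN. -/
def Stmt_EXT : Prop :=
  ∀ (Γ G : Subgroup H) (m : HypMetric Γ), FirstKind Γ → Γ ≤ G →
    (∀ g ∈ G, ∀ γ ∈ Γ, g * γ * g⁻¹ ∈ Γ) → BdM Γ G m → ∀ (B : Set H) (s t u v : ℝ), s < t →
    t < u → u < v → v < s + 2 * Real.pi → InfMod Γ (Cen G B) →
    (∀ g ∈ Cen G B, g (Circle.exp s) = Circle.exp s ∧ g (Circle.exp t) = Circle.exp t ∧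
      g (Circle.exp u) = Circle.exp u ∧ g (Circle.exp v) = Circle.exp v) →
    ∀ e ∈ Γ, ∀ x ∈ Circle.exp '' Ioo s t, ∀ y ∈ Circle.exp '' Ioo u v, Axis e x y →
      InfMod Γ (Cen G (insert e B))

/-- CY4 (90 lines; uses nothing). The cyclic order of the ends of two crossing axes. `p = exp s`,
`q = exp u` with `s < u < s + 2π`; `a` and `b` are not in the same of the two arcs (see SYM):
`a = exp t`, `b = exp v`, `s < t < u < v < s + 2π`, or the same with `a`, `b` exchanged. -/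
def Stmt_CY4 : Prop :=
  ∀ p q a b : Circle, p ≠ q → Link p q a b → ∃ s t u v : ℝ, s < t ∧ t < u ∧ u < v ∧
    v < s + 2 * Real.pi ∧ Circle.exp s = p ∧ Circle.exp u = q ∧
    ((Circle.exp t = a ∧ Circle.exp v = b) ∨ (Circle.exp t = b ∧ Circle.exp v = a))

/-- EX1 (180 lines; uses FXP, EXT, CY4). Adding a geodesic with an end in a given open set. All
`g ∈ Cen G B` fix `p₁, q₁, p₂, q₂` (FXP), which are `exp s, exp u, exp t, exp v` as in CY4. `U` contains a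
point different from these four (an infinite open set), it is in one of the four open arcs
`(s, t)`, `(t, u)`, `(u, v)`, `(v, s + 2π)`; DNS for `U ∩` this arc and the opposite arc gives `e ∈ Γ` with
`Axis e x y`. EXT for `(s, t, u, v)`, `(t, u, v, s + 2π)`, `(u, v, s + 2π, t + 2π)` or
`(v, s + 2π, t + 2π, u + 2π)` (`exp (θ + 2π) = exp θ`; arcs are open by ARC). -/
def Stmt_EX1 : Prop :=
  ∀ (Γ G : Subgroup H) (m : HypMetric Γ), FirstKind Γ → Γ ≤ G →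
    (∀ g ∈ G, ∀ γ ∈ Γ, g * γ * g⁻¹ ∈ Γ) → BdM Γ G m → ∀ (γ₁ γ₂ : H) (p₁ q₁ p₂ q₂ : Circle),
    γ₁ ∈ Γ → γ₂ ∈ Γ → Axis γ₁ p₁ q₁ → Axis γ₂ p₂ q₂ → Link p₁ q₁ p₂ q₂ → ∀ B : Set H,
    γ₁ ∈ B → γ₂ ∈ B → InfMod Γ (Cen G B) → ∀ U : Set Circle, IsOpen U → U.Nonempty →
    ∃ e ∈ Γ, ∃ x ∈ U, ∃ y : Circle, Axis e x y ∧ InfMod Γ (Cen G (insert e B))

/-- ADD (150 lines; uses FXP, EXT, EX1). Adding an arbitrary closed geodesic. `x = exp σ`,
`y = exp τ`, `σ < τ < σ + 2π`, `μ = (σ + τ) / 2`, `μ' = (τ + σ + 2π) / 2`. EX1 four times: `e₁, .., e₄ ∈ Γ` with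
one end `exp α₁, .., exp α₄` in the open arcs `(σ, μ)`, `(μ, τ)`, `(τ, μ')`, `(μ', σ + 2π)`;
`B' = {e₄, e₃, e₂, e₁} ∪ B`. All `g ∈ Cen G B'` fix the `exp αᵢ` (FXP). EXT for
`s = α₄ - 2π < t = α₁ < u = α₂ < v = α₃ < α₄`, `x ∈ exp '' Ioo s t` (`σ`), `y ∈ exp '' Ioo u v` (`τ`). -/
def Stmt_ADD : Prop :=
  ∀ (Γ G : Subgroup H) (m : HypMetric Γ), FirstKind Γ → Γ ≤ G →
    (∀ g ∈ G, ∀ γ ∈ Γ, g * γ * g⁻¹ ∈ Γ) → BdM Γ G m → ∀ (γ₁ γ₂ : H) (p₁ q₁ p₂ q₂ : Circle),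
    γ₁ ∈ Γ → γ₂ ∈ Γ → Axis γ₁ p₁ q₁ → Axis γ₂ p₂ q₂ → Link p₁ q₁ p₂ q₂ → ∀ B : Set H,
    γ₁ ∈ B → γ₂ ∈ B → InfMod Γ (Cen G B) → ∀ e ∈ Γ, ∀ x y : Circle, Axis e x y →
    ∃ B' : Set H, B ⊆ B' ∧ e ∈ B' ∧ InfMod Γ (Cen G B')

/-- IND (70 lines; uses COS, ADD). Induction on the finite set `A` (`Set.Finite.induction_on`): there
is `B' ⊇ B ∪ A` with `InfMod Γ (Cen G B')`; `Cen` is antitone, COS (4). -/
def Stmt_IND : Prop :=
  ∀ (Γ G : Subgroup H) (m : HypMetric Γ), FirstKind Γ → Γ ≤ G →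
    (∀ g ∈ G, ∀ γ ∈ Γ, g * γ * g⁻¹ ∈ Γ) → BdM Γ G m → ∀ (γ₁ γ₂ : H) (p₁ q₁ p₂ q₂ : Circle),
    γ₁ ∈ Γ → γ₂ ∈ Γ → Axis γ₁ p₁ q₁ → Axis γ₂ p₂ q₂ → Link p₁ q₁ p₂ q₂ → ∀ B : Set H,
    γ₁ ∈ B → γ₂ ∈ B → InfMod Γ (Cen G B) → ∀ A : Set H, A.Finite → A ⊆ Γ →
    (∀ γ ∈ A, ∃ p q, Axis γ p q) → InfMod Γ (Cen G A)

/-! ### D. The other direction, one mapping class -/

/-- ONE (100 lines; uses TCJ). Let `ρ : G → Möb`, `π` realize `G`. `m`: the restriction of `ρ` to `Γ`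
(`Subgroup.inclusion`), and `ρ (g γ g⁻¹) = ρ g * ρ γ * (ρ g)⁻¹`, so `M = |Re α|` for `Par (ρ γ) α β` works
(TCJ). Discreteness: `rl2` gives `Conv G`, `main` gives `Displaces Γ G`. DNS (for `U = V = univ`) gives
`γ ∈ Γ` with an axis `(p, q)`; `A = {γ}`. If `g γ = γ g` then `g` maps the set `{p, q}` of the fixed
points of `γ` to itself, so `Meets g p q p q`; `F` from `Displaces` for `γ`, `γ`. -/
def Stmt_ONE : Prop :=
  ∀ Γ G : Subgroup H, FirstKind Γ → Γ ≤ G → (∀ g ∈ G, ∀ γ ∈ Γ, g * γ * g⁻¹ ∈ Γ) →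
    RealizedW G → Bounded Γ G ∧ DiscreteIn Γ G

/-- CYB (100 lines; uses nothing). `A = {γ}`, `F = {1}`. The elements of `Γ ⊔ zpowers f` are the
`κ f ^ n`, `κ ∈ Γ`, `n : ℤ` (see `B_CYC.lean`). Let `g = κ f ^ n` commute with `γ`; `g` maps `{p, q}` to
itself. If `n > 0` this contradicts the hypothesis; if `n < 0` then `g⁻¹ = f ^ (-n) κ⁻¹ = κ' f ^ (-n)` with
`κ' ∈ Γ` also maps `{p, q}` to itself. So `n = 0` and `g ∈ Γ`. -/
def Stmt_CYB : Prop :=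
  ∀ (Γ : Subgroup H) (f : H), FirstKind Γ → (∀ γ, γ ∈ Γ ↔ f * γ * f⁻¹ ∈ Γ) →
    ∀ γ ∈ Γ, ∀ p q : Circle, Axis γ p q → ¬ Periodic Γ f p q →
    DiscreteIn Γ (Γ ⊔ Subgroup.zpowers f)

/-! ### The theorem -/

/-- the theorem -/
def Stmt_BL : Prop :=
  ∀ Γ G : Subgroup H, FirstKind Γ → Γ ≤ G → (∀ g ∈ G, ∀ γ ∈ Γ, g * γ * g⁻¹ ∈ Γ) →
    (RealizedW G → Bounded Γ G ∧ DiscreteIn Γ G) ∧ (Bounded Γ G → DiscreteIn Γ G → Conv G)

theorem two (hS : Stmt_STB) (hC : Stmt_CRS) (hI : Stmt_IND) (Γ G : Subgroup H)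
    (h1 : FirstKind Γ) (h2 : Γ ≤ G) (h3 : ∀ g ∈ G, ∀ γ ∈ Γ, g * γ * g⁻¹ ∈ Γ)
    (hb : Bounded Γ G) (hd : DiscreteIn Γ G) : Conv G := by
  obtain ⟨m, hm⟩ := hb
  rw [(main Γ G h1 h2 h3).1]
  by_contra hcon
  obtain ⟨γ₁, hγ₁, p₁, q₁, ha₁, hi₁⟩ := hS Γ G m h1 h2 h3 hm hcon
  obtain ⟨γ₂, hγ₂, p₂, q₂, ha₂, hl, hi₂⟩ := hC Γ G m h1 h2 h3 hm γ₁ p₁ q₁ hγ₁ ha₁ hi₁
  obtain ⟨A, hA, hAΓ, hAx, F, hF, hF'⟩ := hd
  have hi := hI Γ G m h1 h2 h3 hm γ₁ γ₂ p₁ q₁ p₂ q₂ hγ₁ hγ₂ ha₁ ha₂ hl {γ₂, γ₁}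
    (Or.inr rfl) (Or.inl rfl) hi₂ A hA hAΓ hAx
  obtain ⟨g, hg, hgF⟩ := hi F hF
  obtain ⟨h, hh, hh'⟩ := hF' g hg
  exact hgF h hh hh'

end Pool.BL
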